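import Pool.Agent.H37Thin.Tree

/-!
# The good edge lemma

`P` is a finished cluster at the node `x` and `Q` is a neighbouring cluster with large weight between
them.  An edge `p q` is bad if for some lower node `y` avoided by `P` or by `Q` there is a small cut `N`
of the region between `x` and `y` which separates two robust sets containing `p` and `q`.  If all edges
were bad, a greedy choice would give many bad edges `a_i b_i` with `b_i ∉ N_j` for `j ≠ i`, and counting
the vertices in the bags of the nodes `y_j` by the number of the sets `N_i` containing them bounds the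
harmonic sum `1 + 1/2 + ... + 1/(M - 1)` by `w + 1`.
-/

set_option autoImplicit false

namespace Pool.Agent.H37Thin

open Finset Pool.Agent.H99Thin

section greedy

variable {α : Type} [DecidableEq α]

/-- greedy choice of an independent set in a digraph with small out-weights -/
theorem greedy (μ : α → ℝ) (hμ : ∀ f, 0 ≤ μ f) (R : α → α → Prop) [DecidableRel R]
    {s : ℝ} (hs : 0 < s) (M : ℕ) :
    ∀ F : Finset α, (∀ f ∈ F, R f f) → (∀ f ∈ F, ∑ g ∈ F.filter (fun g => R f g), μ g < s) →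
      2 * M * s ≤ ∑ f ∈ F, μ f →
      ∃ I ⊆ F, I.card = M ∧ ∀ f ∈ I, ∀ g ∈ I, f ≠ g → ¬ R f g := by
  induction M with
  | zero =>
    intro F _ _ _
    exact ⟨∅, empty_subset _, card_empty, fun f hf => absurd hf (notMem_empty f)⟩
  | succ M ih =>
    intro F hrefl hout htot
    push_cast at htot
    have hpos : 0 < ∑ f ∈ F, μ f := by
      have : 0 ≤ (M : ℝ) * s := by positivity
      nlinarith
    -- an element with small in-weight
    obtain ⟨f, hf, hin⟩ : ∃ f ∈ F, ∑ g ∈ F.filter (fun g => R g f), μ g < s := by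
      by_contra hcon
      push Not at hcon
      have h1 : ∑ f ∈ F, μ f * s ≤ ∑ f ∈ F, μ f * ∑ g ∈ F.filter (fun g => R g f), μ g :=
        sum_le_sum fun f hf => mul_le_mul_of_nonneg_left (hcon f hf) (hμ f)
      have h2 : ∑ f ∈ F, μ f * ∑ g ∈ F.filter (fun g => R g f), μ g =
          ∑ g ∈ F, μ g * ∑ f ∈ F.filter (fun f => R g f), μ f := by
        simp only [sum_filter, mul_sum]
        rw [sum_comm]
        refine sum_congr rfl fun g _ => sum_congr rfl fun f _ => ?_
        split_ifs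
        · ring
        · ring
      obtain ⟨g0, hg0, hg0'⟩ : ∃ g ∈ F, 0 < μ g := by
        by_contra h
        push Not at h
        exact absurd (sum_nonpos h) (not_le_of_gt hpos)
      have h3 : ∑ g ∈ F, μ g * ∑ f ∈ F.filter (fun f => R g f), μ f < ∑ g ∈ F, μ g * s :=
        sum_lt_sum (fun g hg => mul_le_mul_of_nonneg_left (hout g hg).le (hμ g))
          ⟨g0, hg0, mul_lt_mul_of_pos_left (hout g0 hg0) hg0'⟩
      linarith
    have hsplit : ∑ g ∈ F, μ g ≤ ∑ g ∈ F.filter (fun g => ¬ R f g ∧ ¬ R g f), μ g +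
        (∑ g ∈ F.filter (fun g => R f g), μ g + ∑ g ∈ F.filter (fun g => R g f), μ g) := by
      simp only [sum_filter]
      rw [← sum_add_distrib, ← sum_add_distrib]
      refine sum_le_sum fun g _ => ?_
      have := hμ g
      by_cases h1 : R f g <;> by_cases h2 : R g f <;> simp [h1, h2, this]
    obtain ⟨I, hI, hIc, hIi⟩ := ih (F.filter fun g => ¬ R f g ∧ ¬ R g f)
      (fun g hg => hrefl g (mem_filter.1 hg).1)
      (fun g hg => by
        refine lt_of_le_of_lt ?_ (hout g (mem_filter.1 hg).1)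
        refine sum_le_sum_of_subset_of_nonneg ?_ fun i _ _ => hμ i
        intro i hi
        rw [mem_filter, mem_filter] at hi
        exact mem_filter.2 ⟨hi.1.1, hi.2⟩)
      (by have := hout f hf; linarith)
    have hfI : f ∉ I := fun h => (mem_filter.1 (hI h)).2.1 (hrefl f hf)
    refine ⟨insert f I, ?_, by rw [card_insert_of_notMem hfI, hIc], ?_⟩
    · intro g hg
      rcases mem_insert.1 hg with rfl | hg
      · exact hf
      · exact (mem_filter.1 (hI hg)).1
    · intro g hg g' hg' hne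
      rcases mem_insert.1 hg with h1 | h1
      · rcases mem_insert.1 hg' with h2 | h2
        · exact absurd (h1.trans h2.symm) hne
        · rw [h1]
          exact (mem_filter.1 (hI h2)).2.1
      · rcases mem_insert.1 hg' with h2 | h2
        · rw [h2]
          exact (mem_filter.1 (hI h1)).2.2
        · exact hIi g h1 g' h2 hne

end greedy

/-- the harmonic sum up to `3 ^ (w + 1) - 1` is larger than `w + 1` -/
theorem harm_lt (w : ℕ) : ((w : ℝ) + 1) < ∑ t ∈ range (3 ^ (w + 1) - 1), 1 / ((t : ℝ) + 1) := by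
  have h1 := log_add_one_le_harmonic (3 ^ (w + 1) - 1)
  have h2 : (3 ^ (w + 1) - 1 + 1 : ℕ) = 3 ^ (w + 1) := Nat.sub_add_cancel (Nat.one_le_pow _ _ (by norm_num))
  rw [h2] at h1
  have h3 : ((harmonic (3 ^ (w + 1) - 1) : ℚ) : ℝ) =
      ∑ t ∈ range (3 ^ (w + 1) - 1), 1 / ((t : ℝ) + 1) := by
    unfold harmonic
    push_cast
    refine sum_congr rfl fun t _ => ?_
    rw [one_div]
  rw [h3] at h1
  refine lt_of_lt_of_le ?_ h1
  push_cast
  rw [Real.log_pow]
  have h4 : (1 : ℝ) < Real.log 3 := by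
    rw [Real.lt_log_iff_exp_lt (by norm_num)]
    have := Real.exp_one_lt_d9
    linarith
  push_cast
  nlinarith

section

variable {V : Type}

theorem E_le_E {m m' : V → V → ℝ} (hm' : ∀ u v, 0 ≤ m' u v)
    {A B A' B' : Finset V} (h : ∀ u ∈ A, ∀ v ∈ B, 0 < m u v → u ∈ A' ∧ v ∈ B' ∧ m u v ≤ m' u v) :
    E m A B ≤ E m' A' B' := by
  classical
  unfold E
  rw [← sum_product', ← sum_product']
  have h1 : ∑ p ∈ A ×ˢ B, m p.1 p.2 ≤ ∑ p ∈ (A ×ˢ B).filter (fun p => 0 < m p.1 p.2), m p.1 p.2 := by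
    rw [sum_filter]
    refine sum_le_sum fun p _ => ?_
    split_ifs with h2
    · exact le_rfl
    · exact not_lt.1 h2
  refine h1.trans ?_
  have h2 : ∑ p ∈ (A ×ˢ B).filter (fun p => 0 < m p.1 p.2), m p.1 p.2 ≤
      ∑ p ∈ (A ×ˢ B).filter (fun p => 0 < m p.1 p.2), m' p.1 p.2 := by
    refine sum_le_sum fun p hp => ?_
    rw [mem_filter, mem_product] at hp
    exact (h p.1 hp.1.1 p.2 hp.1.2 hp.2).2.2
  refine h2.trans (sum_le_sum_of_subset_of_nonneg ?_ fun p _ _ => hm' p.1 p.2)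
  intro p hp
  rw [mem_filter, mem_product] at hp
  have h3 := h p.1 hp.1.1 p.2 hp.1.2 hp.2
  exact mem_product.2 ⟨h3.1, h3.2.1⟩

end

section

variable {V ι : Type} [Fintype V] [DecidableEq V] [PartialOrder ι]

/-- a robust set of the region between `x` and `y` -/
structure Rob (m : V → V → ℝ) (top : V → ι) (al : V → ι → Prop) (κ : ℝ) (x y : ι)
    (Q : Finset V) : Prop where
  alx : ∃ v ∈ Q, al v x
  dn : ∀ v ∈ Q, Dn al x v
  up : ∀ v ∈ Q, ¬ top v ≤ y
  cut : ∀ S ⊆ Q, S.Nonempty → (∀ v ∈ S, ¬ al v x) → κ ≤ E (mr m top x (some y)) S (Q \ S)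

/-- the edge `p q` is bad: a small cut of the region separates robust sets containing its ends -/
def Bad (m : V → V → ℝ) (top : V → ι) (al : V → ι → Prop) (s κ : ℝ) (x y : ι) (p q : V) : Prop :=
  ∃ N Q Q' : Finset V, p ∈ Q ∧ q ∈ Q' ∧ Disjoint Q N ∧ Q' ⊆ N ∧
    E (mr m top x (some y)) N Nᶜ < s ∧ Rob m top al κ x y Q ∧ Rob m top al κ x y Q'

/-- oriented data of a bad edge -/
structure BD (m : V → V → ℝ) (top : V → ι) (al : V → ι → Prop) (s κ : ℝ) (x : ι) (b : V) (y : ι)
    (N Q : Finset V) : Prop where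
  bQ : b ∈ Q
  QN : Q ⊆ N
  up : ∀ v ∈ N, ¬ top v ≤ y
  cut : E (mr m top x (some y)) N Nᶜ < s
  rob : Rob m top al κ x y Q

variable {m : V → V → ℝ} {top : V → ι} {al : V → ι → Prop} {w : ℕ}

omit [Fintype V] [DecidableEq V] in
lemma mr_pos_iff (hT : TD m top al w) {x y : ι} {u v : V} :
    0 < mr m top x (some y) u v ↔ 0 < m u v ∧ Ed top x u v ∧ ¬ Ed top y u v := by
  unfold mr
  constructor
  · intro h
    split_ifs at h with h1
    · exact ⟨h, h1.1, h1.2 y rfl⟩
    · exact absurd h (lt_irrefl _)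
  · rintro ⟨h1, h2, h3⟩
    rw [if_pos ⟨h2, fun b hb => by
      have : y = b := by simpa using hb
      rw [← this]
      exact h3⟩]
    exact h1

omit [Fintype V] [DecidableEq V] in
lemma mr_eq (hT : TD m top al w) {x y : ι} {u v : V} (h : Ed top x u v) (h' : ¬ Ed top y u v) :
    mr m top x (some y) u v = m u v := by
  unfold mr
  rw [if_pos ⟨h, fun b hb => by
    have : y = b := by simpa using hb
    rw [← this]
    exact h'⟩]

/-- two bad edges with comparable nodes -/
theorem no_comp (hT : TD m top al w) {s κ : ℝ} (hsκ : s ≤ κ) {x : ι} {b b' : V} {y y' : ι}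
    {N N' Q Q' : Finset V} (h : BD m top al s κ x b y N Q) (h' : BD m top al s κ x b' y' N' Q')
    (htr : ∀ v, al v x → v ∈ N → v ∈ N') (hb : b ∉ N') (hy : y' ≤ y) : False := by
  have h1 := h.rob.cut (Q \ N') sdiff_subset ⟨b, mem_sdiff.2 ⟨h.bQ, hb⟩⟩ (fun v hv hal => by
    rw [mem_sdiff] at hv
    exact hv.2 (htr v hal (h.QN hv.1)))
  have h2 : E (mr m top x (some y)) (Q \ N') (Q \ (Q \ N')) ≤
      E (mr m top x (some y')) N'ᶜ N' := by
    refine E_le_E (mr_nonneg hT x (some y')) fun u hu v hv huv => ?_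
    rw [mem_sdiff] at hu hv
    rw [mr_pos_iff hT] at huv
    refine ⟨mem_compl.2 hu.2, ?_, ?_⟩
    · by_contra hcon
      exact hv.2 (mem_sdiff.2 ⟨hv.1, hcon⟩)
    · rw [mr_eq hT huv.2.1 huv.2.2, mr_eq hT huv.2.1 (fun h3 => huv.2.2 (h3.mono hy))]
  rw [E_comm (mr_symm hT x (some y')) N'ᶜ N'] at h2
  have h3 := h'.cut
  linarith

/-- many bad edges with incomparable nodes -/
theorem no_anti {α : Type} [DecidableEq α] (hT : TD m top al w) {s κ : ℝ} {x : ι} (b : α → V)
    (y : α → ι) (N Q : α → Finset V) (I : Finset α) (hI : I.card = 3 ^ (w + 1))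
    (hκ : (3 : ℝ) ^ (w + 1) * s ≤ κ)
    (h : ∀ f ∈ I, BD m top al s κ x (b f) (y f) (N f) (Q f))
    (htr : ∀ f ∈ I, ∀ g ∈ I, ∀ v, al v x → v ∈ N f → v ∈ N g)
    (hb : ∀ f ∈ I, ∀ g ∈ I, f ≠ g → b g ∉ N f)
    (hy : ∀ f ∈ I, ∀ g ∈ I, f ≠ g → ¬ y f ≤ y g) : False := by
  classical
  set M : ℕ := 3 ^ (w + 1) with hM
  have hM1 : 1 ≤ M := Nat.one_le_pow _ _ (by norm_num)
  set σ : V → ℕ := fun v => (I.filter fun l => v ∈ N l).card with hσ
  have key : ∀ i ∈ I, ∀ t, t < M - 1 → ∃ v j, j ∈ I ∧ j ≠ i ∧ al v (y j) ∧ v ∈ N i ∧ v ∈ N j ∧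
      σ v = t + 2 := by
    intro i hi t ht
    set S := (Q i).filter (fun v => σ v ≤ t + 1) with hS
    have hbS : b i ∈ S := by
      refine mem_filter.2 ⟨(h i hi).bQ, ?_⟩
      have h1 : (I.filter fun l => b i ∈ N l) ⊆ {i} := by
        intro l hl
        rw [mem_filter] at hl
        rw [mem_singleton]
        by_contra hne
        exact hb l hl.1 i hi hne hl.2
      have h2 := card_le_card h1
      rw [card_singleton] at h2
      show (I.filter fun l => b i ∈ N l).card ≤ t + 1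
      omega
    have h1 := (h i hi).rob.cut S (filter_subset _ _) ⟨b i, hbS⟩ (fun v hv hal => by
      rw [mem_filter] at hv
      have h2 : (I.filter fun l => v ∈ N l) = I :=
        filter_true_of_mem fun l hl => htr i hi l hl v hal ((h i hi).QN hv.1)
      have h3 : σ v = M := by
        show (I.filter fun l => v ∈ N l).card = M
        rw [h2, hI]
      omega)
    -- an edge of the cut which is below all the nodes `y j` with `j` new
    obtain ⟨u, hu, v, hv, huv, hgood⟩ : ∃ u ∈ S, ∃ v ∈ Q i \ S, 0 < mr m top x (some (y i)) u v ∧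
        ∀ j ∈ I, v ∈ N j → u ∉ N j → Ed top (y j) u v := by
      by_contra hcon
      push Not at hcon
      have h2 : E (mr m top x (some (y i))) S (Q i \ S) ≤
          ∑ j ∈ I, E (mr m top x (some (y j))) (N j)ᶜ (N j) := by
        set g : α → V → V → ℝ := fun j u v =>
          if u ∉ N j ∧ v ∈ N j then mr m top x (some (y j)) u v else 0 with hg
        have hg0 : ∀ j u v, 0 ≤ g j u v := by
          intro j u v
          rw [hg]
          dsimp only
          split_ifs
          · exact mr_nonneg hT x _ u v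
          · exact le_rfl
        have e1 : ∀ j, E (mr m top x (some (y j))) (N j)ᶜ (N j) = ∑ u, ∑ v, g j u v := by
          intro j
          unfold E
          have e2 : ∀ u, ∑ v, g j u v = if u ∈ (N j)ᶜ then
              ∑ v ∈ N j, mr m top x (some (y j)) u v else 0 := by
            intro u
            rw [hg]
            dsimp only
            by_cases h3 : u ∈ N j
            · rw [if_neg (by rw [mem_compl]; exact fun h4 => h4 h3)]
              exact sum_eq_zero fun v _ => if_neg fun h4 => h4.1 h3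
            · rw [if_pos (mem_compl.2 h3)]
              simp only [h3, not_false_eq_true, true_and]
              rw [← sum_filter, filter_mem_eq_inter, univ_inter]
          rw [sum_congr rfl fun u _ => e2 u, ← sum_filter, filter_mem_eq_inter, univ_inter]
        rw [sum_congr rfl fun j _ => e1 j]
        have e3 : ∑ j ∈ I, ∑ u, ∑ v, g j u v = ∑ u, ∑ v, ∑ j ∈ I, g j u v := by
          rw [sum_comm]
          exact sum_congr rfl fun u _ => sum_comm
        rw [e3]
        have e4 : E (mr m top x (some (y i))) S (Q i \ S) ≤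
            E (fun u v => ∑ j ∈ I, g j u v) univ univ := by
          refine E_le_E (fun u v => sum_nonneg fun j _ => hg0 j u v) fun u hu v hv huv =>
            ⟨mem_univ _, mem_univ _, ?_⟩
          obtain ⟨j, hj, hj1, hj2, hj3⟩ := hcon u hu v hv huv
          rw [mr_pos_iff hT] at huv
          have e5 : mr m top x (some (y i)) u v = g j u v := by
            rw [hg]
            dsimp only
            rw [if_pos ⟨hj2, hj1⟩, mr_eq hT huv.2.1 huv.2.2, mr_eq hT huv.2.1 hj3]
          rw [e5]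
          exact single_le_sum (f := fun j => g j u v) (fun l _ => hg0 l u v) hj
        exact e4
      have h3 : ∑ j ∈ I, E (mr m top x (some (y j))) (N j)ᶜ (N j) < ∑ _j ∈ I, s := by
        refine sum_lt_sum_of_nonempty ⟨i, hi⟩ fun j hj => ?_
        rw [E_comm (mr_symm hT x (some (y j)))]
        exact (h j hj).cut
      rw [sum_const, hI, nsmul_eq_mul] at h3
      push_cast [hM] at h3
      linarith
    have hu' := mem_filter.1 hu
    have hv' := mem_sdiff.1 hv
    have hvσ : t + 2 ≤ σ v := by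
      by_contra hcon
      exact hv'.2 (mem_filter.2 ⟨hv'.1, by omega⟩)
    have huv' := (mr_pos_iff hT).1 huv
    -- the new indices
    set D := I.filter (fun j => v ∈ N j ∧ u ∉ N j) with hD
    have hD1 : D.card ≤ 1 := by
      rw [card_le_one]
      intro j hj l hl
      rw [mem_filter] at hj hl
      by_contra hne
      have h3 := hgood j hj.1 hj.2.1 hj.2.2
      have h4 := hgood l hl.1 hl.2.1 hl.2.2
      obtain ⟨z, hz1, hz2⟩ := hT.adj u v huv'.1
      have h5 : z ≤ y j := h3.elim (fun h => (hT.le_top u z hz1).trans h)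
        (fun h => (hT.le_top v z hz2).trans h)
      have h6 : z ≤ y l := h4.elim (fun h => (hT.le_top u z hz1).trans h)
        (fun h => (hT.le_top v z hz2).trans h)
      rcases hT.chain z (y j) (y l) h5 h6 with h7 | h7
      · exact hy j hj.1 l hl.1 hne h7
      · exact hy l hl.1 j hj.1 (fun h => hne h.symm) h7
    have hsub : (I.filter fun l => v ∈ N l) ⊆ (I.filter fun l => u ∈ N l) ∪ D := by
      intro l hl
      rw [mem_filter] at hl
      rw [mem_union, mem_filter, mem_filter]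
      by_cases h3 : u ∈ N l
      · exact Or.inl ⟨hl.1, h3⟩
      · exact Or.inr ⟨hl.1, hl.2, h3⟩
    have hle : σ v ≤ σ u + D.card := (card_le_card hsub).trans (card_union_le _ _)
    have hDne : D.Nonempty := by
      rw [← card_pos]
      have := hu'.2
      omega
    obtain ⟨j, hj⟩ := hDne
    rw [mem_filter] at hj
    have hjy := hgood j hj.1 hj.2.1 hj.2.2
    have hvtop : ¬ top v ≤ y j := (h j hj.1).up v hj.2.1
    have hutop : top u ≤ y j := hjy.resolve_right hvtop
    refine ⟨v, j, hj.1, fun h3 => ?_, ?_, (h i hi).QN hv'.1, hj.2.1, ?_⟩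
    · rw [h3] at hj
      exact hj.2.2 ((h i hi).QN hu'.1)
    · exact hT.al_of_Dn (hT.Dn_of_adj huv'.1 hutop) hvtop
    · have := hu'.2
      omega
  obtain ⟨i0, hi0⟩ : I.Nonempty := by
    rw [← card_pos]
    omega
  have : Nonempty V := ⟨b i0⟩
  have : Nonempty α := ⟨i0⟩
  choose! V' J' hJI hJne hal hVi hVj hσv using key
  set h' : α × V × α → ℝ := fun p => 1 / ((σ p.2.1 : ℝ) - 1) with hh'
  set φ : α × ℕ → α × V × α := fun p => (p.1, V' p.1 p.2, J' p.1 p.2) with hφ
  set Tt : Finset (α × V × α) := (I ×ˢ (univ ×ˢ I)).filter fun p =>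
    al p.2.1 (y p.2.2) ∧ p.2.1 ∈ N p.1 ∧ p.2.1 ∈ N p.2.2 ∧ p.2.2 ≠ p.1 with hTt
  have hnn : ∀ p ∈ Tt, 0 ≤ h' p := by
    intro p hp
    rw [hTt, mem_filter, mem_product, mem_product] at hp
    have h1 : 1 ≤ σ p.2.1 := by
      show 1 ≤ (I.filter fun l => p.2.1 ∈ N l).card
      rw [Nat.one_le_iff_ne_zero, ← Nat.pos_iff_ne_zero, card_pos]
      exact ⟨p.1, mem_filter.2 ⟨hp.1.1, hp.2.2.1⟩⟩
    have h2 : (1 : ℝ) ≤ σ p.2.1 := by exact_mod_cast h1
    exact div_nonneg zero_le_one (by linarith)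
  have hlhs : (M : ℝ) * ∑ t ∈ range (M - 1), 1 / ((t : ℝ) + 1) =
      ∑ p ∈ (I ×ˢ range (M - 1)), h' (φ p) := by
    rw [sum_product]
    have e1 : ∀ i ∈ I, ∑ t ∈ range (M - 1), h' (φ (i, t)) = ∑ t ∈ range (M - 1), 1 / ((t : ℝ) + 1) := by
      intro i hi
      refine sum_congr rfl fun t ht => ?_
      have h2 := hσv i hi t (mem_range.1 ht)
      show 1 / ((σ (V' i t) : ℝ) - 1) = _
      rw [h2]
      push_cast
      ring_nf
    rw [sum_congr rfl e1, sum_const, hI, nsmul_eq_mul]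
  have hinj : Set.InjOn φ (I ×ˢ range (M - 1) : Finset (α × ℕ)) := by
    rintro ⟨i, t⟩ hp ⟨i', t'⟩ hp' heq
    rw [mem_coe, mem_product, mem_range] at hp hp'
    rw [hφ] at heq
    dsimp only at heq hp hp'
    rw [Prod.mk.injEq, Prod.mk.injEq] at heq
    obtain ⟨h1, h2, -⟩ := heq
    subst h1
    have h3 := hσv i hp.1 t hp.2
    have h4 := hσv i hp.1 t' hp'.2
    rw [h2] at h3
    have : t = t' := by omega
    rw [this]
  have hle : ∑ p ∈ (I ×ˢ range (M - 1)), h' (φ p) ≤ ∑ p ∈ Tt, h' p := by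
    rw [← sum_image (g := φ) (f := h') hinj]
    refine sum_le_sum_of_subset_of_nonneg ?_ fun p hp _ => hnn p hp
    intro p hp
    obtain ⟨⟨i, t⟩, hit, rfl⟩ := mem_image.1 hp
    rw [mem_product, mem_range] at hit
    dsimp only at hit
    rw [hTt, mem_filter, mem_product, mem_product]
    exact ⟨⟨hit.1, mem_univ _, hJI i hit.1 t hit.2⟩, hal i hit.1 t hit.2, hVi i hit.1 t hit.2,
      hVj i hit.1 t hit.2, hJne i hit.1 t hit.2⟩
  have hrhs : ∑ p ∈ Tt, h' p ≤ (M : ℝ) * ((w : ℝ) + 1) := by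
    rw [hTt, sum_filter, sum_product]
    simp only [sum_product]
    rw [sum_comm]
    have e1 : ∀ v : V, ∑ i ∈ I, ∑ j ∈ I, (if al v (y j) ∧ v ∈ N i ∧ v ∈ N j ∧ j ≠ i then
        h' (i, v, j) else 0) ≤ ∑ j ∈ I, if al v (y j) then (1 : ℝ) else 0 := by
      intro v
      rw [sum_comm]
      refine sum_le_sum fun j hj => ?_
      by_cases h1 : al v (y j) ∧ v ∈ N j
      · rw [if_pos h1.1]
        have e2 : ∀ i ∈ I, (if al v (y j) ∧ v ∈ N i ∧ v ∈ N j ∧ j ≠ i then h' (i, v, j) else 0) =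
            if v ∈ N i ∧ j ≠ i then 1 / ((σ v : ℝ) - 1) else 0 := by
          intro i _
          by_cases h2 : v ∈ N i ∧ j ≠ i
          · rw [if_pos ⟨h1.1, h2.1, h1.2, h2.2⟩, if_pos h2]
          · rw [if_neg fun h3 => h2 ⟨h3.2.1, h3.2.2.2⟩, if_neg h2]
        rw [sum_congr rfl e2, ← sum_filter, sum_const, nsmul_eq_mul]
        have e3 : (I.filter fun i => v ∈ N i ∧ j ≠ i) = (I.filter fun i => v ∈ N i).erase j := by
          ext i
          rw [mem_filter, mem_erase, mem_filter]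
          constructor
          · exact fun h => ⟨fun h' => h.2.2 h'.symm, h.1, h.2.1⟩
          · exact fun h => ⟨h.2.1, h.2.2, fun h' => h.1 h'.symm⟩
        have hjm : j ∈ I.filter fun i => v ∈ N i := mem_filter.2 ⟨hj, h1.2⟩
        have e4 : (I.filter fun i => v ∈ N i ∧ j ≠ i).card = σ v - 1 := by
          rw [e3, card_erase_of_mem hjm]
        have h5 : 1 ≤ σ v := by
          show 1 ≤ (I.filter fun l => v ∈ N l).card
          exact card_pos.2 ⟨j, hjm⟩
        rw [e4, Nat.cast_sub h5]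
        push_cast
        rw [mul_one_div]
        exact div_self_le_one _
      · have e2 : ∀ i ∈ I, (if al v (y j) ∧ v ∈ N i ∧ v ∈ N j ∧ j ≠ i then h' (i, v, j) else 0) =
            0 := by
          intro i _
          rw [if_neg fun h3 => h1 ⟨h3.1, h3.2.2.1⟩]
        rw [sum_congr rfl e2, sum_const_zero]
        split_ifs
        · exact zero_le_one
        · exact le_rfl
    refine (sum_le_sum fun v _ => e1 v).trans ?_
    rw [sum_comm]
    have e2 : ∀ j ∈ I, ∑ v : V, (if al v (y j) then (1 : ℝ) else 0) ≤ (w : ℝ) + 1 := by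
      intro j _
      rw [← sum_filter, sum_const, nsmul_eq_mul, mul_one]
      have h1 := hT.wd (y j) (univ.filter fun v => al v (y j)) fun v hv => (mem_filter.1 hv).2
      exact_mod_cast h1
    refine (sum_le_sum e2).trans ?_
    rw [sum_const, hI, nsmul_eq_mul]
  have h1 := harm_lt w
  rw [← hM] at h1
  have h2 : (0 : ℝ) < M := by exact_mod_cast (by omega : 0 < M)
  have h3 := mul_lt_mul_of_pos_left h1 h2
  linarith

/-- the weight of a family of bad edges with the same orientation and the same trace is small -/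
theorem core_lt {α : Type} [DecidableEq α] (hT : TD m top al w) {s κ : ℝ} (hs : 0 < s)
    (hκ : (3 : ℝ) ^ (w + 1) * s ≤ κ) {x : ι} (a b : α → V) (y : α → ι) (N Q : α → Finset V)
    (F : Finset α) (hinj : ∀ f ∈ F, ∀ g ∈ F, a f = a g → b f = b g → f = g)
    (h : ∀ f ∈ F, BD m top al s κ x (b f) (y f) (N f) (Q f))
    (hEd : ∀ f ∈ F, Ed top x (a f) (b f))
    (hnEd : ∀ f ∈ F, ∀ g ∈ F, ¬ Ed top (y f) (a g) (b g))
    (ha : ∀ f ∈ F, ∀ g ∈ F, a g ∉ N f)
    (htr : ∀ f ∈ F, ∀ g ∈ F, ∀ v, al v x → v ∈ N f → v ∈ N g) :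
    ∑ f ∈ F, m (a f) (b f) < 2 * (3 : ℝ) ^ (w + 1) * s := by
  classical
  by_contra hcon
  push Not at hcon
  have hsκ : s ≤ κ := by
    have h1 : (1 : ℝ) ≤ 3 ^ (w + 1) := one_le_pow₀ (by norm_num)
    nlinarith
  obtain ⟨I, hI, hIc, hIi⟩ := greedy (fun f => m (a f) (b f)) (fun f => hT.nn _ _)
    (fun f g => b g ∈ N f) hs (3 ^ (w + 1)) F (fun f hf => (h f hf).QN (h f hf).bQ)
    (fun f hf => by
      refine lt_of_le_of_lt ?_ (h f hf).cut
      rw [← E_comm (mr_symm hT x (some (y f))) (N f)ᶜ (N f)]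
      have e1 : ∑ g ∈ F.filter (fun g => b g ∈ N f), m (a g) (b g) =
          ∑ g ∈ F.filter (fun g => b g ∈ N f), mr m top x (some (y f)) (a g) (b g) := by
        refine sum_congr rfl fun g hg => ?_
        rw [mem_filter] at hg
        exact (mr_eq hT (hEd g hg.1) (hnEd f hf g hg.1)).symm
      rw [e1]
      have e2 : ∑ g ∈ F.filter (fun g => b g ∈ N f), mr m top x (some (y f)) (a g) (b g) =
          ∑ p ∈ (F.filter (fun g => b g ∈ N f)).image (fun g => (a g, b g)),
            mr m top x (some (y f)) p.1 p.2 := by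
        rw [sum_image]
        intro g hg g' hg' heq
        rw [mem_coe, mem_filter] at hg hg'
        rw [Prod.mk.injEq] at heq
        exact hinj g hg.1 g' hg'.1 heq.1 heq.2
      rw [e2]
      unfold E
      rw [← sum_product' (N f)ᶜ (N f) (fun u v => mr m top x (some (y f)) u v)]
      refine sum_le_sum_of_subset_of_nonneg ?_ fun p _ _ => mr_nonneg hT x _ _ _
      intro p hp
      obtain ⟨g, hg, rfl⟩ := mem_image.1 hp
      rw [mem_filter] at hg
      exact mem_product.2 ⟨mem_compl.2 (ha f hf g hg.1), hg.2⟩)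
    (by push_cast; exact hcon)
  by_cases hc : ∃ f ∈ I, ∃ g ∈ I, f ≠ g ∧ y f ≤ y g
  · obtain ⟨f, hf, g, hg, hfg, hy⟩ := hc
    exact no_comp hT hsκ (h g (hI hg)) (h f (hI hf)) (htr g (hI hg) f (hI hf))
      (hIi f hf g hg hfg) hy
  · push Not at hc
    exact no_anti hT b y N Q I hIc hκ (fun f hf => h f (hI hf))
      (fun f hf g hg => htr f (hI hf) g (hI hg)) (fun f hf g hg hfg => hIi f hf g hg hfg)
      (fun f hf g hg hfg => hc f hf g hg hfg)

/-- removing from a set the vertices with `top v ≤ y` does not enlarge the cut -/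
theorem cut_filter_le (hT : TD m top al w) {x y : ι} (N N' : Finset V)
    (h1 : N' ⊆ N) (h2 : ∀ v ∈ N, v ∉ N' → top v ≤ y) :
    E (mr m top x (some y)) N' N'ᶜ ≤ E (mr m top x (some y)) N Nᶜ := by
  refine E_le_E (mr_nonneg hT x (some y)) fun u hu v hv huv => ⟨h1 hu, ?_, le_rfl⟩
  rw [mem_compl] at hv ⊢
  intro hvN
  exact ((mr_pos_iff hT).1 huv).2.2 (Or.inr (h2 v hvN hv))

/-- **The good edge lemma.** -/
theorem good_edge (hT : TD m top al w) {s κ κ0 : ℝ} (hs : 0 < s)
    (hκ : (3 : ℝ) ^ (w + 1) * s ≤ κ) (hκ0 : (2 : ℝ) ^ (w + 3) * 3 ^ (w + 1) * s ≤ κ0) {x : ι}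
    {P Q : Finset V} (hfin : ∀ p ∈ P, top p ≤ x) (hE : κ0 ≤ E m P Q)
    (hP : ∀ (y : ι) (N : Finset V), (∀ v ∈ P, ¬ Dn al y v) →
      E (mr m top x (some y)) N Nᶜ < s → (∀ v ∈ P, v ∈ N) ∨ ∀ v ∈ P, v ∉ N)
    (hQ : ∀ (y : ι) (N : Finset V), (∀ v ∈ Q, ¬ Dn al y v) →
      E (mr m top x (some y)) N Nᶜ < s →
        (∀ v ∈ Q, Dn al x v → v ∈ N) ∨ ∀ v ∈ Q, Dn al x v → v ∉ N) :
    ∃ p ∈ P, ∃ q ∈ Q, 0 < m p q ∧ ∀ y, y < x →
      ((∀ v ∈ P, ¬ Dn al y v) ∨ ∀ v ∈ Q, ¬ Dn al y v) → ¬ Bad m top al s κ x y p q := by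
  classical
  by_contra hcon
  push Not at hcon
  -- orientation of the bad edges
  have hor : ∀ f ∈ (P ×ˢ Q).filter (fun f => 0 < m f.1 f.2), ∃ (c : Bool) (y : ι)
      (N' Q' : Finset V), y < x ∧
      (c = true → (∀ v ∈ P, ¬ Dn al y v) ∧ BD m top al s κ x f.2 y N' Q' ∧ ∀ v ∈ P, v ∉ N') ∧
      (c = false → (∀ v ∈ Q, ¬ Dn al y v) ∧ BD m top al s κ x f.1 y N' Q' ∧
        ∀ v ∈ Q, Dn al x v → v ∉ N') := by
    intro f hf
    rw [mem_filter, mem_product] at hf
    obtain ⟨y, hyx, hav, N0, Q0, Q1, hp, hq, hdis, hsub, hcut, hr0, hr1⟩ :=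
      hcon f.1 hf.1.1 f.2 hf.1.2 hf.2
    by_cases hav' : ∀ v ∈ P, ¬ Dn al y v
    · have h1 : ∀ v ∈ P, v ∉ N0 := (hP y N0 hav' hcut).resolve_left fun h =>
        disjoint_left.1 hdis hp (h f.1 hf.1.1)
      refine ⟨true, y, N0.filter (fun v => ¬ top v ≤ y), Q1, hyx, fun _ => ⟨hav', ⟨hq, ?_, ?_, ?_,
        hr1⟩, fun v hv h => h1 v hv (mem_filter.1 h).1⟩, fun h => absurd h (by simp)⟩
      · exact fun v hv => mem_filter.2 ⟨hsub hv, hr1.up v hv⟩
      · exact fun v hv => (mem_filter.1 hv).2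
      · refine lt_of_le_of_lt (cut_filter_le hT N0 _ (filter_subset _ _) fun v hv hv' => ?_) hcut
        by_contra h
        exact hv' (mem_filter.2 ⟨hv, h⟩)
    · have hav2 := hav.resolve_left hav'
      have h1 : ∀ v ∈ Q, Dn al x v → v ∈ N0 := (hQ y N0 hav2 hcut).resolve_right fun h =>
        h f.2 hf.1.2 (hr1.dn f.2 hq) (hsub hq)
      refine ⟨false, y, N0ᶜ.filter (fun v => ¬ top v ≤ y), Q0, hyx, fun h => absurd h (by simp),
        fun _ => ⟨hav2, ⟨hp, ?_, ?_, ?_, hr0⟩, fun v hv hd h =>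
          (mem_compl.1 (mem_filter.1 h).1) (h1 v hv hd)⟩⟩
      · exact fun v hv => mem_filter.2 ⟨mem_compl.2 (disjoint_left.1 hdis hv), hr0.up v hv⟩
      · exact fun v hv => (mem_filter.1 hv).2
      · refine lt_of_le_of_lt (cut_filter_le hT N0ᶜ _ (filter_subset _ _) fun v hv hv' => ?_) ?_
        · by_contra h
          exact hv' (mem_filter.2 ⟨hv, h⟩)
        · rw [compl_compl, E_comm (mr_symm hT x (some y))]
          exact hcut
  have : Nonempty ι := ⟨x⟩
  choose! c y N Q' hyx htrue hfalse using hor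
  set F0 := (P ×ˢ Q).filter (fun f => 0 < m f.1 f.2) with hF0
  set Xx : Finset V := univ.filter (fun v => al v x) with hXx
  have hXc : Xx.card ≤ w + 1 := hT.wd x Xx fun v hv => (mem_filter.1 hv).2
  have hsum : ∑ f ∈ F0, m f.1 f.2 = E m P Q := by
    unfold E
    rw [← sum_product' P Q (fun u v => m u v), hF0, sum_filter]
    refine sum_congr rfl fun f _ => ?_
    split_ifs with h
    · rfl
    · exact le_antisymm (hT.nn _ _) (not_lt.1 h)
  obtain ⟨⟨c0, X0⟩, -, hcol⟩ := exists_le_sum_fiber_of_maps_to_of_nsmul_le_sum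
    (s := F0) (t := (univ : Finset Bool) ×ˢ Xx.powerset)
    (f := fun f => (c f, (N f).filter (fun v => al v x))) (w := fun f => m f.1 f.2)
    (b := 2 * (3 : ℝ) ^ (w + 1) * s)
    (fun f _ => mem_product.2 ⟨mem_univ _, mem_powerset.2 fun v hv =>
      mem_filter.2 ⟨mem_univ _, (mem_filter.1 hv).2⟩⟩)
    ⟨(true, ∅), mem_product.2 ⟨mem_univ _, mem_powerset.2 (empty_subset _)⟩⟩
    (by
      rw [hsum]
      refine le_trans ?_ (hκ0.trans hE)
      rw [card_product, card_powerset, card_univ, Fintype.card_bool, nsmul_eq_mul]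
      push_cast
      have h1 : (2 : ℝ) ^ Xx.card ≤ 2 ^ (w + 1) := pow_le_pow_right₀ (by norm_num) hXc
      have h2 : (0 : ℝ) < 3 ^ (w + 1) * s := by positivity
      calc (2 : ℝ) * 2 ^ Xx.card * (2 * 3 ^ (w + 1) * s)
          ≤ 2 * 2 ^ (w + 1) * (2 * 3 ^ (w + 1) * s) := by
            apply mul_le_mul_of_nonneg_right _ (by positivity)
            linarith
        _ = 2 ^ (w + 3) * 3 ^ (w + 1) * s := by ring)
  set F := F0.filter (fun f => (c f, (N f).filter (fun v => al v x)) = (c0, X0)) with hF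
  have hFc : ∀ f ∈ F, c f = c0 := fun f hf => (Prod.mk.inj (mem_filter.1 hf).2).1
  have hFX : ∀ f ∈ F, (N f).filter (fun v => al v x) = X0 := fun f hf =>
    (Prod.mk.inj (mem_filter.1 hf).2).2
  have hFP : ∀ f ∈ F, f.1 ∈ P ∧ f.2 ∈ Q ∧ 0 < m f.1 f.2 := by
    intro f hf
    have h1 := (mem_filter.1 hf).1
    rw [hF0, mem_filter, mem_product] at h1
    exact ⟨h1.1.1, h1.1.2, h1.2⟩
  have htr : ∀ f ∈ F, ∀ g ∈ F, ∀ v, al v x → v ∈ N f → v ∈ N g := by
    intro f hf g hg v hal hv
    have h1 : v ∈ (N f).filter (fun v => al v x) := mem_filter.2 ⟨hv, hal⟩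
    rw [hFX f hf, ← hFX g hg] at h1
    exact (mem_filter.1 h1).1
  cases c0 with
  | true =>
    have h1 := fun f (hf : f ∈ F) => htrue f (mem_filter.1 hf).1 (hFc f hf)
    have h2 := core_lt hT hs hκ (x := x) (fun f : V × V => f.1) (fun f => f.2) y N Q' F
      (fun f _ g _ h h' => Prod.ext h h') (fun f hf => (h1 f hf).2.1)
      (fun f hf => Or.inl (hfin f.1 (hFP f hf).1))
      (fun f hf g hg hed => by
        rcases hed with h | h
        · exact (h1 f hf).1 g.1 (hFP g hg).1 (hT.Dn_of_top h)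
        · exact (h1 f hf).1 g.1 (hFP g hg).1 (hT.Dn_of_adj' (hFP g hg).2.2 h))
      (fun f hf g hg => (h1 f hf).2.2 g.1 (hFP g hg).1) htr
    exact absurd hcol (not_le_of_gt h2)
  | false =>
    have h1 := fun f (hf : f ∈ F) => hfalse f (mem_filter.1 hf).1 (hFc f hf)
    have h2 := core_lt hT hs hκ (x := x) (fun f : V × V => f.2) (fun f => f.1) y N Q' F
      (fun f _ g _ h h' => Prod.ext h' h) (fun f hf => (h1 f hf).2.1)
      (fun f hf => Or.inr (hfin f.1 (hFP f hf).1))
      (fun f hf g hg hed => by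
        rcases hed with h | h
        · exact (h1 f hf).1 g.2 (hFP g hg).2.1 (hT.Dn_of_top h)
        · exact (h1 f hf).1 g.2 (hFP g hg).2.1 (hT.Dn_of_adj (hFP g hg).2.2 h))
      (fun f hf g hg => (h1 f hf).2.2 g.2 (hFP g hg).2.1
        (hT.Dn_of_adj (hFP g hg).2.2 (hfin g.1 (hFP g hg).1))) htr
    have h3 : ∑ f ∈ F, m f.2 f.1 = ∑ f ∈ F, m f.1 f.2 := sum_congr rfl fun f _ => hT.symm _ _
    rw [h3] at h2
    exact absurd hcol (not_le_of_gt h2)

end

end Pool.Agent.H37Thin
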