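import Pool.Agent.H37Thin.Tree

/-!
# Partition of a region into few well connected parts  (module PARTS)

The region between `x` and `y ≤ x` has the vertices `v` below `x` with `¬ top v ≤ y` and the edges of
`mr m top x (some y)`.  `exists_part` (`κ = k / 4`) gives a partition with inner cuts `≥ k / 4` and
`cross ≤ 2 (k / 4) (R - 1)`; a part which avoids the bags of `x` and `y` has all its edges in the region
(`al_of_Dn`, `Dn_of_adj`), so its boundary is at least `k`; at most `2 (w + 1)` parts meet the two bags; so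
`R - 2 (w + 1) ≤ (R - 1) / 2` (as in `Pool.Agent.H99Thin.parts_le`).
-/

set_option autoImplicit false

namespace Pool.Agent.H37Thin

open Finset Pool.Agent.H99Thin

variable {V ι : Type} [Fintype V] [DecidableEq V] [PartialOrder ι]
variable {m : V → V → ℝ} {top : V → ι} {al : V → ι → Prop} {w : ℕ}

open Classical in
/-- the vertices of the region between `x` and `y` -/
noncomputable def VR (top : V → ι) (al : V → ι → Prop) (x y : ι) : Finset V :=
  univ.filter fun v => Dn al x v ∧ ¬ top v ≤ y

omit [DecidableEq V] in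
lemma mem_VR {x y : ι} {v : V} : v ∈ VR top al x y ↔ Dn al x v ∧ ¬ top v ≤ y := by
  simp [VR]

/-- at most `4 (w + 1)` parts -/
theorem parts_le (hT : TD m top al w) {k : ℝ} (hk : 0 < k)
    (hconn : ∀ A : Finset V, A.Nonempty → A ≠ univ → k ≤ E m A Aᶜ) {x y : ι} (f : V → ℕ)
    (hf : cross (mr m top x (some y)) f (VR top al x y) ≤
      2 * (k / 4) * ((((VR top al x y).image f).card : ℝ) - 1)) :
    ((VR top al x y).image f).card ≤ 4 * (w + 1) := by
  classical
  set S := VR top al x y with hS
  set R := (S.image f).card with hRdef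
  set bx : Finset V := univ.filter fun v => al v x with hbx
  set by' : Finset V := univ.filter fun v => al v y with hby
  set bd := bx ∪ by' with hbd
  have hbdc : bd.card ≤ 2 * (w + 1) := by
    have h1 : bd.card ≤ bx.card + by'.card := card_union_le _ _
    have h2 := hT.wd x bx fun v hv => (mem_filter.1 hv).2
    have h3 := hT.wd y by' fun v hv => (mem_filter.1 hv).2
    omega
  set 𝒞 := S.image f \ bd.image f with h𝒞
  have h𝒞c : R ≤ 𝒞.card + 2 * (w + 1) := by
    have h1 : (S.image f).card - (bd.image f).card ≤ 𝒞.card := le_card_sdiff _ _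
    have h2 : (bd.image f).card ≤ bd.card := card_image_le
    omega
  -- interior vertices
  have hint : ∀ i ∈ 𝒞, ∀ u ∈ S.filter (fun v => f v = i),
      top u ≤ x ∧ ¬ top u ≤ y ∧ ¬ Dn al y u := by
    intro i hi u hu
    rw [mem_filter] at hu
    have h1 : u ∉ bd := fun h => (mem_sdiff.1 hi).2 (mem_image.2 ⟨u, h, hu.2⟩)
    rw [hbd, mem_union, not_or, hbx, hby, mem_filter, mem_filter] at h1
    have h2 := mem_VR.1 hu.1
    refine ⟨?_, h2.2, ?_⟩
    · by_contra h4
      exact h1.1 ⟨mem_univ _, hT.al_of_Dn h2.1 h4⟩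
    · intro h4
      exact h1.2 ⟨mem_univ _, hT.al_of_Dn h4 h2.2⟩
  by_cases huniv : ∃ i ∈ 𝒞, S.filter (fun v => f v = i) = univ
  · obtain ⟨i, hi, hiu⟩ := huniv
    have h1 : S.image f ⊆ {i} := by
      intro z hz
      obtain ⟨v, _, rfl⟩ := mem_image.1 hz
      have h2 : v ∈ S.filter (fun v => f v = i) := by rw [hiu]; exact mem_univ v
      rw [mem_filter] at h2
      rw [mem_singleton]
      exact h2.2
    have h2 := card_le_card h1
    rw [card_singleton] at h2
    omega
  push Not at huniv
  have hpart : ∀ i ∈ 𝒞, k ≤ ∑ u ∈ S.filter (fun v => f v = i), ∑ v ∈ S,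
      if f u = f v then 0 else mr m top x (some y) u v := by
    intro i hi
    obtain ⟨u0, hu0, hu0'⟩ := mem_image.1 (mem_sdiff.1 hi).1
    have hne : (S.filter (fun v => f v = i)).Nonempty := ⟨u0, mem_filter.2 ⟨hu0, hu0'⟩⟩
    refine (hconn _ hne (huniv i hi)).trans ?_
    unfold E
    refine sum_le_sum fun u hu => ?_
    have h1 := hint i hi u hu
    have hfu : f u = i := (mem_filter.1 hu).2
    -- compare with the sum over all `v`
    have h2 : ∑ v ∈ (S.filter (fun v => f v = i))ᶜ, m u v =
        ∑ v ∈ (S.filter (fun v => f v = i))ᶜ, if v ∈ S then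
          (if f u = f v then 0 else mr m top x (some y) u v) else 0 := by
      refine sum_congr rfl fun v hv => ?_
      rcases (hT.nn u v).eq_or_lt with h0 | h0
      · rw [← h0]
        have : mr m top x (some y) u v = 0 := by
          unfold mr
          rw [← h0, ite_self]
        rw [this]
        simp
      · have h3 : Dn al x v := hT.Dn_of_adj h0 h1.1
        have h4 : ¬ top v ≤ y := fun h => h1.2.2 (hT.Dn_of_adj' h0 h)
        have hvS : v ∈ S := mem_VR.2 ⟨h3, h4⟩
        have hfv : f u ≠ f v := by
          intro h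
          rw [mem_compl, mem_filter, not_and] at hv
          exact hv hvS (by rw [← h, hfu])
        rw [if_pos hvS, if_neg hfv]
        unfold mr
        rw [if_pos]
        refine ⟨Or.inl h1.1, fun b hb => ?_⟩
        rw [Option.mem_def, Option.some.injEq] at hb
        subst hb
        rintro (h5 | h5)
        · exact h1.2.1 h5
        · exact h4 h5
    rw [h2]
    have h3 : ∑ v ∈ (S.filter (fun v => f v = i))ᶜ, (if v ∈ S then
          (if f u = f v then 0 else mr m top x (some y) u v) else 0) ≤
        ∑ v, if v ∈ S then (if f u = f v then 0 else mr m top x (some y) u v) else 0 := by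
      refine sum_le_sum_of_subset_of_nonneg (subset_univ _) fun v _ _ => ?_
      split_ifs
      · exact le_rfl
      · exact mr_nonneg hT x (some y) u v
      · exact le_rfl
    refine h3.trans_eq ?_
    rw [← sum_filter]
    congr 1
    ext v
    simp
  have hsum : (𝒞.card : ℝ) * k ≤ cross (mr m top x (some y)) f S := by
    have h1 : ∑ i ∈ 𝒞, k ≤ ∑ i ∈ 𝒞, ∑ u ∈ S.filter (fun v => f v = i), ∑ v ∈ S,
        (if f u = f v then 0 else mr m top x (some y) u v) := sum_le_sum hpart
    rw [sum_const, nsmul_eq_mul] at h1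
    refine h1.trans ?_
    have hnn : ∀ u, 0 ≤ ∑ v ∈ S, (if f u = f v then 0 else mr m top x (some y) u v) := by
      intro u
      refine sum_nonneg fun v _ => ?_
      split_ifs
      · exact le_rfl
      · exact mr_nonneg hT x (some y) u v
    calc ∑ i ∈ 𝒞, ∑ u ∈ S.filter (fun v => f v = i), ∑ v ∈ S,
        (if f u = f v then 0 else mr m top x (some y) u v)
        ≤ ∑ i ∈ S.image f, ∑ u ∈ S.filter (fun v => f v = i), ∑ v ∈ S,
        (if f u = f v then 0 else mr m top x (some y) u v) :=
          sum_le_sum_of_subset_of_nonneg sdiff_subset fun i _ _ => sum_nonneg fun u _ => hnn u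
      _ = cross (mr m top x (some y)) f S := by
          unfold cross
          exact sum_fiberwise_of_maps_to (fun v hv => mem_image_of_mem f hv) _
  have h1 : (𝒞.card : ℝ) * k ≤ 2 * (k / 4) * ((R : ℝ) - 1) := hsum.trans hf
  have h2 : (𝒞.card : ℝ) ≤ ((R : ℝ) - 1) / 2 := by
    have h3 : (𝒞.card : ℝ) * k ≤ ((R : ℝ) - 1) / 2 * k := by linarith
    exact le_of_mul_le_mul_right h3 hk
  have h3 : (R : ℝ) ≤ 𝒞.card + 2 * (w + 1) := by exact_mod_cast h𝒞c
  have h4 : (R : ℝ) ≤ 4 * (w + 1) := by linarith
  exact_mod_cast h4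

theorem exists_parts (hT : TD m top al w) {k : ℝ} (hk : 0 < k)
    (hconn : ∀ A : Finset V, A.Nonempty → A ≠ univ → k ≤ E m A Aᶜ) {x y : ι} (_hyx : y ≤ x) :
    ∃ f : V → ℕ,
      (∀ i, ∀ B ⊆ (VR top al x y).filter (fun v => f v = i), B.Nonempty →
        B ≠ (VR top al x y).filter (fun v => f v = i) →
        k / 4 ≤ E (mr m top x (some y)) B ((VR top al x y).filter (fun v => f v = i) \ B)) ∧
      ((VR top al x y).image f).card ≤ 4 * (w + 1) := by
  rcases (VR top al x y).eq_empty_or_nonempty with he | hne
  · refine ⟨fun _ => 0, fun i B hB hBne _ => ?_, ?_⟩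
    · rw [he, filter_empty, subset_empty] at hB
      exact absurd hB hBne.ne_empty
    · rw [he, image_empty, card_empty]
      exact Nat.zero_le _
  · obtain ⟨f, hf1, hf2⟩ := exists_part (mr_symm hT x (some y)) (κ := k / 4)
      (VR top al x y).card (VR top al x y) le_rfl hne
    exact ⟨f, hf1, parts_le hT hk hconn f hf2⟩

end Pool.Agent.H37Thin
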