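import Pool.Agent.H37Thin.Marks
import Pool.Agent.H37Thin.Parts
import Pool.Agent.H37Thin.Good

/-!
# Few nodes certify all crossing edges  (module CERT)

For a set `A` let `W x = E (mr m top x none) A Aᶜ`.  `marks` gives `B` and `rt`.  For `y ∈ B` let `f` be the
partition of the region between `rt y` and `y` (`exists_parts`), and for each part (nonempty class of `f`)
take the top node of the part (`TD.exists_top`; a part is `Cc`-connected as its inner cuts are
`≥ k / 4 > 0`).  `Sp` is the union of `B` and of all these top nodes: `|Sp| ≤ |B| (4 w + 5)`.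

Certificate: `x ∈ B`: `τ = x`.  Otherwise (`s ≤ W x`) there is `y ∈ B` with `y < x ≤ rt y`.  If both `P` and
`Q` are alive at `y`: `τ = y`.  Otherwise one of them avoids `y` (`¬ Dn al y v` for its vertices, by
`TD.cc_down`), so `p`, `q` are in the region (`Dn` at `rt y`; `¬ top ≤ y` by `Dn_of_adj`).  Let `Qp`, `Qq` be
their parts.  If no vertex of `Qp` is alive at `x`, then all its vertices have `top ≤ x` (connectedness:
the vertices with `top ≤ x`, one of them is `p`, are not separated from the others: a neighbour `v` of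
`u` with `top u ≤ x` is in `Dn al x v`, so alive or `top v ≤ x`), and `τ` = the top node of `Qp` is
`≤ x` and `≥ top p`; `P` and `Q` are alive at `τ` by `cc_down` (`p` and `q` are in `Dn al τ`).  Same for
`Qq`.  If both have a vertex alive at `x` then `p q` is `Bad` at `(x, y)`: `N = A` or `N = Aᶜ`, the sets
are `Qp` and `Qq` intersected with `{v | Dn al x v}`; they are not split by `A` as the weight of the cut
of `A` in the region is `W (rt y) - W y < s ≤ k / 4`.
-/

set_option autoImplicit false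

namespace Pool.Agent.H37Thin

open Finset Pool.Agent.H99Thin

section

variable {V ι : Type} [PartialOrder ι]
variable {m : V → V → ℝ} {top : V → ι} {al : V → ι → Prop} {w : ℕ}

lemma mr_none_pos_iff {x : ι} {u v : V} :
    0 < mr m top x none u v ↔ 0 < m u v ∧ Ed top x u v := by
  unfold mr
  constructor
  · intro h
    split_ifs at h with h1
    · exact ⟨h, h1.1⟩
    · exact absurd h (lt_irrefl _)
  · rintro ⟨h1, h2⟩
    rw [if_pos ⟨h2, fun b hb => by simp at hb⟩]
    exact h1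

lemma mr_none_eq {x : ι} {u v : V} (h : Ed top x u v) : mr m top x none u v = m u v := by
  unfold mr
  rw [if_pos ⟨h, fun b hb => by simp at hb⟩]

lemma mr_none_eq_zero {x : ι} {u v : V} (h : ¬ Ed top x u v) : mr m top x none u v = 0 := by
  unfold mr
  rw [if_neg fun h' => h h'.1]

lemma mr_some_eq {x y : ι} (hyx : y ≤ x) (u v : V) :
    mr m top x (some y) u v = mr m top x none u v - mr m top y none u v := by
  by_cases h : Ed top y u v
  · rw [mr_none_eq h, mr_none_eq (h.mono hyx), sub_self]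
    unfold mr
    rw [if_neg fun h' => h'.2 y rfl h]
  · rw [mr_none_eq_zero h, sub_zero]
    unfold mr
    congr 1
    apply propext
    constructor
    · exact fun h' => ⟨h'.1, fun b hb => by simp at hb⟩
    · refine fun h' => ⟨h'.1, fun b hb => ?_⟩
      have : y = b := by simpa using hb
      rw [← this]
      exact h

/-- antichains below `x` -/
lemma sum_mr_le (hT : TD m top al w) (x : ι) (M : Finset ι) (h1 : ∀ c ∈ M, c ≤ x)
    (h2 : ∀ c ∈ M, ∀ c' ∈ M, c ≤ c' → c = c') (u v : V) :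
    ∑ c ∈ M, mr m top c none u v ≤ mr m top x none u v := by
  by_cases h : ∃ c ∈ M, 0 < mr m top c none u v
  · obtain ⟨c, hc, hc'⟩ := h
    rw [mr_none_pos_iff] at hc'
    rw [sum_eq_single_of_mem c hc, mr_none_eq hc'.2, mr_none_eq (hc'.2.mono (h1 c hc))]
    intro c' hc1 hne
    refine mr_none_eq_zero fun hed => hne ?_
    obtain ⟨z, hz1, hz2⟩ := hT.adj u v hc'.1
    have h3 : z ≤ c := hc'.2.elim (fun h => (hT.le_top u z hz1).trans h)
      (fun h => (hT.le_top v z hz2).trans h)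
    have h4 : z ≤ c' := hed.elim (fun h => (hT.le_top u z hz1).trans h)
      (fun h => (hT.le_top v z hz2).trans h)
    rcases hT.chain z c c' h3 h4 with h5 | h5
    · exact (h2 c hc c' hc1 h5).symm
    · exact h2 c' hc1 c hc h5
  · push Not at h
    exact (sum_nonpos h).trans (mr_nonneg hT x none u v)

/-- a connected set with a vertex below `x` and no vertex alive at `x` has its top nodes below `x` -/
lemma TD.below (hT : TD m top al w) {x : ι} {C : Finset V} (hC : Cc m C) {c : V} (hc : c ∈ C)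
    (hd : Dn al x c) : (∃ v ∈ C, al v x) ∨ ∀ v ∈ C, top v ≤ x := by
  classical
  by_cases hal : ∃ v ∈ C, al v x
  · exact Or.inl hal
  · right
    push Not at hal
    by_contra hcon
    push Not at hcon
    obtain ⟨v1, hv1, hv1'⟩ := hcon
    have hc' : top c ≤ x := by
      by_contra h
      exact hal c hc (hT.al_of_Dn hd h)
    obtain ⟨u, hu, v, hv, hv', h1⟩ := hC (C.filter fun v => top v ≤ x) (filter_subset _ _)
      ⟨c, mem_filter.2 ⟨hc, hc'⟩⟩ (fun h => by
        rw [← h] at hv1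
        exact hv1' (mem_filter.1 hv1).2)
    have h2 := hT.Dn_of_adj h1 (mem_filter.1 hu).2
    refine hal v hv (hT.al_of_Dn h2 fun h => hv' (mem_filter.2 ⟨hv, h⟩))

end

variable {V ι : Type} [Fintype V] [DecidableEq V] [PartialOrder ι]
variable {m : V → V → ℝ} {top : V → ι} {al : V → ι → Prop} {w : ℕ}

omit [Fintype V] in
/-- the parts of the region, intersected with the vertices below `x`, are robust -/
theorem rob_of_part (hT : TD m top al w) {κ : ℝ} {x x' y : ι} {C : Finset V}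
    (hC : ∀ B ⊆ C, B.Nonempty → B ≠ C → κ ≤ E (mr m top x' (some y)) B (C \ B))
    (hup : ∀ v ∈ C, ¬ top v ≤ y) (hal : ∃ v ∈ C, al v x) (D : Finset V)
    (hD : ∀ v, v ∈ D ↔ v ∈ C ∧ Dn al x v) : Rob m top al κ x y D := by
  obtain ⟨v0, hv0, hv0'⟩ := hal
  refine ⟨⟨v0, (hD v0).2 ⟨hv0, TD.Dn_of_al hv0'⟩, hv0'⟩, fun v hv => ((hD v).1 hv).2,
    fun v hv => hup v ((hD v).1 hv).1, ?_⟩
  intro S hS hne hSal
  have h1 := hC S (fun v hv => ((hD v).1 (hS hv)).1) hne (fun h => hSal v0 (by rw [h]; exact hv0) hv0')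
  refine h1.trans (E_le_E (mr_nonneg hT x (some y)) fun u hu v hv huv => ?_)
  rw [mr_pos_iff hT] at huv
  rw [mem_sdiff] at hv
  have h2 : top u ≤ x := by
    by_contra h
    exact hSal u hu (hT.al_of_Dn ((hD u).1 (hS hu)).2 h)
  refine ⟨hu, mem_sdiff.2 ⟨(hD v).2 ⟨hv.1, hT.Dn_of_adj huv.1 h2⟩, hv.2⟩, ?_⟩
  rw [mr_eq hT huv.2.1 huv.2.2, mr_eq hT (Or.inl h2) huv.2.2]

variable [Fintype ι]

theorem exists_sp (hT : TD m top al w) {k s : ℝ} (hk : 0 < k)
    (hconn : ∀ A : Finset V, A.Nonempty → A ≠ univ → k ≤ E m A Aᶜ) (hs : 0 < s) (hsk : s ≤ k / 4)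
    (A : Finset V) :
    ∃ Sp : Finset ι, (Sp.card : ℝ) * s ≤ 2 * (4 * w + 5) * E m A Aᶜ ∧
      ∀ (x : ι) (P Q : Finset V) (p q : V), Cc m P → Cc m Q → p ∈ P → q ∈ Q → 0 < m p q →
        top p ≤ x → (∃ v ∈ P, al v x) → (∃ v ∈ Q, al v x) →
        ((p ∈ A ∧ q ∉ A) ∨ (p ∉ A ∧ q ∈ A)) →
        s ≤ E (mr m top x none) A Aᶜ →
        (∀ y, y < x → ((∀ v ∈ P, ¬ Dn al y v) ∨ ∀ v ∈ Q, ¬ Dn al y v) →
          ¬ Bad m top al s (k / 4) x y p q) →
        ∃ τ ∈ Sp, (∃ v ∈ P, al v τ) ∧ ∃ v ∈ Q, al v τ := by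
  classical
  obtain ⟨r, hr⟩ := hT.root
  set W : ι → ℝ := fun x => E (mr m top x none) A Aᶜ with hW
  have hWsome : ∀ x y (N : Finset V), y ≤ x → E (mr m top x (some y)) N Nᶜ =
      E (mr m top x none) N Nᶜ - E (mr m top y none) N Nᶜ := by
    intro x y N hyx
    unfold E
    simp only [mr_some_eq hyx, sum_sub_distrib]
  obtain ⟨B, rt, hB, hB1, hB2⟩ := marks hT.chain W
    (fun x => E_nonneg (mr_nonneg hT x none) _ _)
    (fun x y hxy => E_le_E (mr_nonneg hT y none) fun u hu v hv huv => by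
      rw [mr_none_pos_iff] at huv
      exact ⟨hu, hv, by rw [mr_none_eq huv.2, mr_none_eq (huv.2.mono hxy)]⟩)
    (fun x M h1 h2 => by
      show ∑ c ∈ M, E (mr m top c none) A Aᶜ ≤ E (mr m top x none) A Aᶜ
      unfold E
      rw [sum_comm]
      refine sum_le_sum fun u _ => ?_
      rw [sum_comm]
      exact sum_le_sum fun v _ => sum_mr_le hT x M h1 h2 u v) hs r hr
  -- the parts
  have hparts : ∀ y, ∃ f : V → ℕ, y ∈ B →
      (∀ i, ∀ C ⊆ (VR top al (rt y) y).filter (fun v => f v = i), C.Nonempty →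
        C ≠ (VR top al (rt y) y).filter (fun v => f v = i) →
        k / 4 ≤ E (mr m top (rt y) (some y)) C
          ((VR top al (rt y) y).filter (fun v => f v = i) \ C)) ∧
      ((VR top al (rt y) y).image f).card ≤ 4 * (w + 1) := by
    intro y
    by_cases hy : y ∈ B
    · obtain ⟨f, hf⟩ := exists_parts hT hk hconn (hB1 y hy).1
      exact ⟨f, fun _ => hf⟩
    · exact ⟨fun _ => 0, fun h => absurd h hy⟩
  choose f hf using hparts
  set C : ι → ℕ → Finset V := fun y i => (VR top al (rt y) y).filter (fun v => f y v = i) with hCdef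
  have hCc : ∀ y ∈ B, ∀ i, Cc m (C y i) := by
    intro y hy i S hS hne hSC
    have h1 := (hf y hy).1 i S hS hne hSC
    by_contra hcon
    push Not at hcon
    have h2 : E (mr m top (rt y) (some y)) S (C y i \ S) ≤ 0 := by
      refine sum_nonpos fun u hu => sum_nonpos fun v hv => ?_
      rw [mem_sdiff] at hv
      exact (mr_le hT _ _ u v).trans (hcon u hu v hv.1 hv.2)
    have h3 : k / 4 ≤ E (mr m top (rt y) (some y)) S (C y i \ S) := h1
    linarith
  have htops : ∀ y i, ∃ τ : ι, y ∈ B → (C y i).Nonempty →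
      (∃ v ∈ C y i, top v = τ) ∧ ∀ v ∈ C y i, top v ≤ τ := by
    intro y i
    by_cases h : y ∈ B ∧ (C y i).Nonempty
    · obtain ⟨v0, h1, h2⟩ := hT.exists_top (hCc y h.1 i) h.2
      exact ⟨top v0, fun _ _ => ⟨⟨v0, h1, rfl⟩, h2⟩⟩
    · exact ⟨r, fun h1 h2 => absurd ⟨h1, h2⟩ h⟩
  choose τ hτ using htops
  refine ⟨B ∪ B.biUnion fun y => ((VR top al (rt y) y).image (f y)).image (τ y), ?_, ?_⟩
  · -- counting
    have h1 : (B ∪ B.biUnion fun y => ((VR top al (rt y) y).image (f y)).image (τ y)).card ≤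
        B.card * (4 * w + 5) := by
      refine (card_union_le _ _).trans ?_
      have h2 : (B.biUnion fun y => ((VR top al (rt y) y).image (f y)).image (τ y)).card ≤
          B.card * (4 * (w + 1)) :=
        card_biUnion_le_card_mul _ _ _ fun y hy => card_image_le.trans (hf y hy).2
      calc B.card + _ ≤ B.card + B.card * (4 * (w + 1)) := Nat.add_le_add_left h2 _
        _ = B.card * (4 * w + 5) := by ring
    have h2 : ((B ∪ B.biUnion fun y => ((VR top al (rt y) y).image (f y)).image (τ y)).card : ℝ) ≤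
        (B.card : ℝ) * (4 * w + 5) := by exact_mod_cast h1
    have h3 : W r ≤ E m A Aᶜ := E_le_E hT.nn fun u hu v hv _ => ⟨hu, hv, mr_le hT _ _ u v⟩
    have h4 : (0 : ℝ) ≤ 4 * w + 5 := by positivity
    calc ((B ∪ B.biUnion fun y => ((VR top al (rt y) y).image (f y)).image (τ y)).card : ℝ) * s
        ≤ (B.card : ℝ) * (4 * w + 5) * s := mul_le_mul_of_nonneg_right h2 hs.le
      _ = (4 * w + 5) * (B.card * s) := by ring
      _ ≤ (4 * w + 5) * (2 * E m A Aᶜ) := mul_le_mul_of_nonneg_left (by linarith) h4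
      _ = 2 * (4 * w + 5) * E m A Aᶜ := by ring
  · intro x P Q p q hP hQ hp hq hpq hpx hPx hQx hcr hWx hgood
    by_cases hxB : x ∈ B
    · exact ⟨x, mem_union_left _ hxB, hPx, hQx⟩
    rcases hB2 x hxB with h1 | ⟨y, hy, hyx, hxr⟩
    · exact absurd h1 (not_lt_of_ge hWx)
    by_cases hboth : (∃ v ∈ P, al v y) ∧ ∃ v ∈ Q, al v y
    · exact ⟨y, mem_union_left _ hy, hboth⟩
    have hav : (∀ v ∈ P, ¬ Dn al y v) ∨ ∀ v ∈ Q, ¬ Dn al y v := by
      by_contra hcon
      push Not at hcon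
      exact hboth ⟨hT.cc_down hP hyx.le hcon.1 hPx, hT.cc_down hQ hyx.le hcon.2 hQx⟩
    have hqp : 0 < m q p := by rw [hT.symm]; exact hpq
    have hpy : ¬ top p ≤ y := by
      intro h
      rcases hav with h1 | h1
      · exact h1 p hp (hT.Dn_of_top h)
      · exact h1 q hq (hT.Dn_of_adj hpq h)
    have hqy : ¬ top q ≤ y := by
      intro h
      rcases hav with h1 | h1
      · exact h1 p hp (hT.Dn_of_adj hqp h)
      · exact h1 q hq (hT.Dn_of_top h)
    have hqx : Dn al x q := hT.Dn_of_adj hpq hpx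
    have hpC : p ∈ C y (f y p) :=
      mem_filter.2 ⟨mem_VR.2 ⟨(hT.Dn_of_top hpx).mono hxr, hpy⟩, rfl⟩
    have hqC : q ∈ C y (f y q) := mem_filter.2 ⟨mem_VR.2 ⟨hqx.mono hxr, hqy⟩, rfl⟩
    have hmemSp : ∀ v, v ∈ C y (f y v) → τ y (f y v) ∈
        B ∪ B.biUnion fun y => ((VR top al (rt y) y).image (f y)).image (τ y) := by
      intro v hv
      refine mem_union_right _ (mem_biUnion.2 ⟨y, hy, mem_image_of_mem _ (mem_image_of_mem _ ?_)⟩)
      exact (mem_filter.1 hv).1
    rcases hT.below (hCc y hy (f y p)) hpC (hT.Dn_of_top hpx) with hpal | hpall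
    swap
    · -- the part of `p` is below `x`
      obtain ⟨⟨v0, hv0, hv0'⟩, h2⟩ := hτ y (f y p) hy ⟨p, hpC⟩
      have h3 : τ y (f y p) ≤ x := by rw [← hv0']; exact hpall v0 hv0
      have h4 := h2 p hpC
      exact ⟨_, hmemSp p hpC, hT.cc_down hP h3 ⟨p, hp, hT.Dn_of_top h4⟩ hPx,
        hT.cc_down hQ h3 ⟨q, hq, hT.Dn_of_adj hpq h4⟩ hQx⟩
    rcases hT.below (hCc y hy (f y q)) hqC hqx with hqal | hqall
    swap
    · -- the part of `q` is below `x`
      obtain ⟨⟨v0, hv0, hv0'⟩, h2⟩ := hτ y (f y q) hy ⟨q, hqC⟩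
      have h3 : τ y (f y q) ≤ x := by rw [← hv0']; exact hqall v0 hv0
      have h4 := h2 q hqC
      exact ⟨_, hmemSp q hqC, hT.cc_down hP h3 ⟨p, hp, hT.Dn_of_adj hqp h4⟩ hPx,
        hT.cc_down hQ h3 ⟨q, hq, hT.Dn_of_top h4⟩ hQx⟩
    -- the edge is bad
    exfalso
    apply hgood y hyx hav
    have hcutA : E (mr m top (rt y) (some y)) A Aᶜ < s := by
      rw [hWsome (rt y) y A (hB1 y hy).1]
      exact (hB1 y hy).2
    have hcutN : ∀ N : Finset V, (N = A ∨ N = Aᶜ) → E (mr m top (rt y) (some y)) N Nᶜ < s := by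
      rintro N (rfl | rfl)
      · exact hcutA
      · rw [compl_compl, E_comm (mr_symm hT _ _)]
        exact hcutA
    -- the parts are not split
    have hunsplit : ∀ N : Finset V, (N = A ∨ N = Aᶜ) → ∀ i, ∀ u ∈ C y i, u ∈ N →
        ∀ v ∈ C y i, v ∈ N := by
      intro N hN i u hu huN v hv
      by_contra hvN
      have h2 := (hf y hy).1 i (C y i ∩ N) inter_subset_left ⟨u, mem_inter.2 ⟨hu, huN⟩⟩
        (fun h => hvN (by
          have h3 : v ∈ C y i ∩ N := by rw [h]; exact hv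
          exact (mem_inter.1 h3).2))
      have h3 : E (mr m top (rt y) (some y)) (C y i ∩ N) (C y i \ (C y i ∩ N)) ≤
          E (mr m top (rt y) (some y)) N Nᶜ := by
        refine E_mono (mr_nonneg hT _ _) inter_subset_right fun v hv => ?_
        rw [mem_sdiff, mem_inter] at hv
        rw [mem_compl]
        exact fun h => hv.2 ⟨hv.1, h⟩
      have h4 := hcutN N hN
      have h5 : k / 4 ≤ E (mr m top (rt y) (some y)) (C y i ∩ N) (C y i \ (C y i ∩ N)) := h2
      linarith
    obtain ⟨N, hN, hpN, hqN⟩ : ∃ N : Finset V, (N = A ∨ N = Aᶜ) ∧ p ∉ N ∧ q ∈ N := by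
      rcases hcr with ⟨h1, h2⟩ | ⟨h1, h2⟩
      · exact ⟨Aᶜ, Or.inr rfl, fun h => (mem_compl.1 h) h1, mem_compl.2 h2⟩
      · exact ⟨A, Or.inl rfl, h1, h2⟩
    have hup : ∀ i, ∀ v ∈ C y i, ¬ top v ≤ y := fun i v hv => (mem_VR.1 (mem_filter.1 hv).1).2
    refine ⟨N, (C y (f y p)).filter (fun v => Dn al x v), (C y (f y q)).filter (fun v => Dn al x v),
      mem_filter.2 ⟨hpC, hT.Dn_of_top hpx⟩, mem_filter.2 ⟨hqC, hqx⟩, ?_, ?_, ?_, ?_, ?_⟩
    · rw [disjoint_left]
      intro v hv hvN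
      exact hpN (hunsplit N hN (f y p) v (mem_filter.1 hv).1 hvN p hpC)
    · intro v hv
      exact hunsplit N hN (f y q) q hqC hqN v (mem_filter.1 hv).1
    · refine lt_of_le_of_lt (E_le_E (mr_nonneg hT _ _) fun u hu v hv huv => ⟨hu, hv, ?_⟩)
        (hcutN N hN)
      rw [mr_pos_iff hT] at huv
      rw [mr_eq hT huv.2.1 huv.2.2, mr_eq hT (huv.2.1.mono hxr) huv.2.2]
    · exact rob_of_part hT ((hf y hy).1 (f y p)) (hup _) hpal _ fun v => mem_filter
    · exact rob_of_part hT ((hf y hy).1 (f y q)) (hup _) hqal _ fun v => mem_filter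

end Pool.Agent.H37Thin
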