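import Pool.Agent.H99Thin.Main
import Pool.Agent.H37Thin.Cert

/-!
# Thin trees for bounded treewidth: the merging process

Clusters are merged one after the other.  At a lowest node `x` at which some cluster is finished
(all its bags are below `x`) this cluster is joined to a neighbouring cluster by the edge of the good edge
lemma.
-/

set_option autoImplicit false

namespace Pool.Agent.H37Thin

open Finset Pool.Agent.H99Thin

section

variable {V ι : Type} [Fintype V] [DecidableEq V] [PartialOrder ι]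

/-- some cluster, not the only one, is finished at `x` -/
def Fin' (top : V → ι) (c : V → V) (x : ι) : Prop :=
  ∃ p, (∃ v, c v ≠ p) ∧ (∃ v, c v = p) ∧ ∀ v, c v = p → top v ≤ x

open Classical in
/-- the state of the merging process -/
structure TSt (m : V → V → ℝ) (top : V → ι) (al : V → ι → Prop) (w : ℕ) (κ0 : ℝ)
    (Sp : Finset V → Finset ι) (c : V → V) (H : SimpleGraph V) (L : ι → ℕ) : Prop where
  conn : ∀ p, Cc m (cls c p)
  span : ∀ u v, c u = c v → H.Reachable u v
  adj : ∀ u v, H.Adj u v → 0 < m u v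
  load : ∀ A : Finset V, tc H A ≤ ∑ τ ∈ Sp A, L τ
  wid : ∀ τ, L τ + ((univ.filter fun v => al v τ).image c).card ≤ w + 1
  uns : ∀ x, Fin' top c x → ∀ (q : V) (y : Option ι) (A : Finset V),
    (∀ b ∈ y, ∀ v ∈ cls c q, ¬ Dn al b v) → E (mr m top x y) A Aᶜ < κ0 →
      (∀ v ∈ cls c q, Dn al x v → v ∈ A) ∨ ∀ v ∈ cls c q, Dn al x v → v ∉ A

variable {m : V → V → ℝ} {top : V → ι} {al : V → ι → Prop} {w : ℕ}

omit [Fintype V] [DecidableEq V] in
/-- a connected set which is below `x` but not alive at `x` -/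
lemma TD.all_top (hT : TD m top al w) {C : Finset V} (hC : Cc m C) {x : ι} {v : V} (hv : v ∈ C)
    (hd : Dn al x v) (hna : ∀ v ∈ C, ¬ al v x) : ∀ v ∈ C, top v ≤ x := by
  classical
  have key : ∀ v ∈ C, Dn al x v → top v ≤ x := by
    intro v hv hd
    by_contra h
    exact hna v hv (hT.al_of_Dn hd h)
  by_contra hcon
  push Not at hcon
  obtain ⟨v1, hv1, hv1'⟩ := hcon
  obtain ⟨u, hu, v', hv', hv'', h1⟩ := hC (C.filter fun v => top v ≤ x) (filter_subset _ _)
    ⟨v, mem_filter.2 ⟨hv, key v hv hd⟩⟩ (fun h => by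
      rw [← h] at hv1
      exact hv1' (mem_filter.1 hv1).2)
  exact hv'' (mem_filter.2 ⟨hv', key v' hv' (hT.Dn_of_adj h1 (mem_filter.1 hu).2)⟩)

/-- A finished cluster at a lowest possible node, and a neighbouring cluster with at least `k / w`
edges between them. -/
theorem heavy (hT : TD m top al w) (hw : 0 < w) [Fintype ι] {k : ℝ} (hk : 0 < k)
    (hconn : ∀ A : Finset V, A.Nonempty → A ≠ univ → k ≤ E m A Aᶜ) {κ0 : ℝ}
    {Sp : Finset V → Finset ι} {c : V → V} {H : SimpleGraph V} {L : ι → ℕ}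
    (hS : TSt m top al w κ0 Sp c H L) (hne : ∃ u v, c u ≠ c v) :
    ∃ (x : ι) (p q : V), p ≠ q ∧ Fin' top c x ∧ (∀ x', x' < x → ¬ Fin' top c x') ∧
      (∀ v, c v = p → top v ≤ x) ∧ (∃ v, c v = p ∧ al v x) ∧ (∃ v, c v = q ∧ al v x) ∧
      k / w ≤ E m (cls c p) (cls c q) := by
  classical
  obtain ⟨r, hr⟩ := hT.root
  obtain ⟨u0, v0, huv⟩ := hne
  obtain ⟨x, hx⟩ := (univ.filter fun x => Fin' top c x).exists_minimal
    ⟨r, mem_filter.2 ⟨mem_univ _, c u0, ⟨v0, fun h => huv h.symm⟩, ⟨u0, rfl⟩, fun v _ => hr _⟩⟩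
  have hxF : Fin' top c x := (mem_filter.1 hx.1).2
  have hmin : ∀ x', x' < x → ¬ Fin' top c x' := by
    intro x' h1 h2
    exact absurd (hx.2 (mem_filter.2 ⟨mem_univ _, h2⟩) h1.le) (not_le_of_gt h1)
  obtain ⟨p, hpne, ⟨v1, hv1⟩, hpfin⟩ := hxF
  -- the cluster is alive at `x`
  have halp : ∃ v, c v = p ∧ al v x := by
    obtain ⟨v2, hv2, hv2'⟩ := hT.exists_top (hS.conn p) ⟨v1, mem_cls.2 hv1⟩
    have h1 := hpfin v2 (mem_cls.1 hv2)
    rcases h1.eq_or_lt with h2 | h2
    · exact ⟨v2, mem_cls.1 hv2, h2 ▸ hT.top_al v2⟩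
    · exact absurd ⟨p, hpne, ⟨v1, hv1⟩, fun v hv => hv2' v (mem_cls.2 hv)⟩ (hmin _ h2)
  set D := ((univ.filter fun v => al v x).image c).erase p with hD
  have hpD : p ∈ (univ.filter fun v => al v x).image c := by
    obtain ⟨v, hv, hv'⟩ := halp
    exact mem_image.2 ⟨v, mem_filter.2 ⟨mem_univ _, hv'⟩, hv⟩
  have hDc : D.card ≤ w := by
    have h1 : D.card = ((univ.filter fun v => al v x).image c).card - 1 := card_erase_of_mem hpD
    have h2 := hS.wid x
    omega
  -- the neighbouring clusters are alive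
  have hnb : ∀ u ∈ cls c p, ∀ v ∈ (cls c p)ᶜ, 0 < m u v → c v ∈ D := by
    intro u hu v hv huv
    have hcu := mem_cls.1 hu
    have hcv : c v ≠ p := fun h => (mem_compl.1 hv) (mem_cls.2 h)
    refine mem_erase.2 ⟨hcv, ?_⟩
    have hdv : Dn al x v := hT.Dn_of_adj huv (hpfin u hcu)
    by_contra hcon
    have hna : ∀ v' ∈ cls c (c v), ¬ al v' x := by
      intro v' hv' h
      exact hcon (mem_image.2 ⟨v', mem_filter.2 ⟨mem_univ _, h⟩, mem_cls.1 hv'⟩)
    have hall := hT.all_top (hS.conn (c v)) (mem_cls.2 rfl) hdv hna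
    obtain ⟨v2, hv2, hv2'⟩ := hT.exists_top (hS.conn (c v)) ⟨v, mem_cls.2 rfl⟩
    rcases (hall v2 hv2).eq_or_lt with h2 | h2
    · exact hna v2 hv2 (h2 ▸ hT.top_al v2)
    · exact hmin _ h2 ⟨c v, ⟨u, by rw [hcu]; exact fun h => hcv h.symm⟩, ⟨v, rfl⟩,
        fun v' hv' => hv2' v' (mem_cls.2 hv')⟩
  have hKne : (cls c p).Nonempty := ⟨v1, mem_cls.2 hv1⟩
  have hKu : cls c p ≠ univ := by
    intro h
    obtain ⟨v, hv⟩ := hpne
    have h1 : v ∈ cls c p := by rw [h]; exact mem_univ _
    exact hv (mem_cls.1 h1)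
  have hsum : k ≤ ∑ j ∈ D, E m (cls c p) (cls c j) := by
    refine (hconn _ hKne hKu).trans ?_
    unfold E
    have h1 : ∀ u ∈ cls c p, ∑ v ∈ (cls c p)ᶜ, m u v ≤ ∑ j ∈ D, ∑ v ∈ cls c j, m u v := by
      intro u hu
      have h2 : ∑ v ∈ (cls c p)ᶜ, m u v = ∑ v ∈ (cls c p)ᶜ.filter (fun v => c v ∈ D), m u v := by
        symm
        refine sum_subset (filter_subset _ _) fun v hv hv' => ?_
        rcases (hT.nn u v).eq_or_lt with h0 | h0
        · exact h0.symm
        · exact absurd (mem_filter.2 ⟨hv, hnb u hu v hv h0⟩) hv'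
      rw [h2]
      have h3 : ∑ v ∈ univ.filter (fun v => c v ∈ D), m u v = ∑ j ∈ D, ∑ v ∈ cls c j, m u v := by
        rw [← sum_fiberwise_of_maps_to (s := univ.filter (fun v => c v ∈ D)) (t := D) (g := c)
          (f := fun v => m u v) (fun v hv => (mem_filter.1 hv).2)]
        refine sum_congr rfl fun j hj => sum_congr ?_ fun _ _ => rfl
        ext v
        simp only [mem_filter, mem_univ, true_and, mem_cls]
        constructor
        · exact fun h => h.2
        · exact fun h => ⟨by rw [h]; exact hj, h⟩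
      rw [← h3]
      exact sum_le_sum_of_subset_of_nonneg (filter_subset_filter _ (subset_univ _))
        fun v _ _ => hT.nn u v
    calc ∑ u ∈ cls c p, ∑ v ∈ (cls c p)ᶜ, m u v ≤ ∑ u ∈ cls c p, ∑ j ∈ D, ∑ v ∈ cls c j, m u v :=
          sum_le_sum h1
      _ = ∑ j ∈ D, ∑ u ∈ cls c p, ∑ v ∈ cls c j, m u v := sum_comm
      _ = _ := by rfl
  have hw' : (0 : ℝ) < w := by exact_mod_cast hw
  obtain ⟨q, hqD, hq⟩ : ∃ q ∈ D, k / w ≤ E m (cls c p) (cls c q) := by
    by_contra hcon
    push Not at hcon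
    have hDne : D.Nonempty := by
      by_contra h
      rw [not_nonempty_iff_eq_empty] at h
      rw [h, sum_empty] at hsum
      linarith
    have h2 := sum_lt_sum_of_nonempty hDne hcon
    rw [sum_const, nsmul_eq_mul] at h2
    have h3 : (D.card : ℝ) * (k / w) ≤ w * (k / w) := by
      apply mul_le_mul_of_nonneg_right _ (by positivity)
      exact_mod_cast hDc
    have h4 : (w : ℝ) * (k / w) = k := by field_simp
    linarith
  obtain ⟨hqp, hqi⟩ := mem_erase.1 hqD
  obtain ⟨v3, hv3, hv3'⟩ := mem_image.1 hqi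
  exact ⟨x, p, q, fun h => hqp h.symm, ⟨p, hpne, ⟨v1, hv1⟩, hpfin⟩, hmin, hpfin, halp,
    ⟨v3, hv3', (mem_filter.1 hv3).2⟩, hq⟩

/-- One step of the merging process. -/
theorem tstep (hT : TD m top al w) (hw : 0 < w) [Fintype ι] {k s κ0 : ℝ} (hk : 0 < k)
    (hconn : ∀ A : Finset V, A.Nonempty → A ≠ univ → k ≤ E m A Aᶜ) (hs : 0 < s)
    (hκ : (3 : ℝ) ^ (w + 1) * s ≤ k / 4) (hκ0 : (2 : ℝ) ^ (w + 3) * 3 ^ (w + 1) * s ≤ κ0)
    (hκw : κ0 ≤ k / w) {Sp : Finset V → Finset ι}
    (hSp : ∀ A : Finset V, ∀ (x : ι) (P Q : Finset V) (p q : V), Cc m P → Cc m Q → p ∈ P →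
        q ∈ Q → 0 < m p q → top p ≤ x → (∃ v ∈ P, al v x) → (∃ v ∈ Q, al v x) →
        ((p ∈ A ∧ q ∉ A) ∨ (p ∉ A ∧ q ∈ A)) →
        s ≤ E (mr m top x none) A Aᶜ →
        (∀ y, y < x → ((∀ v ∈ P, ¬ Dn al y v) ∨ ∀ v ∈ Q, ¬ Dn al y v) →
          ¬ Bad m top al s (k / 4) x y p q) →
        ∃ τ ∈ Sp A, (∃ v ∈ P, al v τ) ∧ ∃ v ∈ Q, al v τ)
    {c : V → V} {H : SimpleGraph V} {L : ι → ℕ} (hS : TSt m top al w κ0 Sp c H L)
    (hne : ∃ u v, c u ≠ c v) :
    ∃ (c' : V → V) (H' : SimpleGraph V) (L' : ι → ℕ), TSt m top al w κ0 Sp c' H' L' ∧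
      (univ.image c').card < (univ.image c).card := by
  classical
  obtain ⟨x, p, q, hpq, hfin, hmin, hpfin, halp, halq, hE⟩ := heavy hT hw hk hconn hS hne
  have hsκ0 : s ≤ κ0 := by
    refine le_trans ?_ hκ0
    have h1 : (1 : ℝ) ≤ 2 ^ (w + 3) * 3 ^ (w + 1) :=
      one_le_mul_of_one_le_of_one_le (one_le_pow₀ (by norm_num)) (one_le_pow₀ (by norm_num))
    nlinarith
  have hE0 : κ0 ≤ E m (cls c p) (cls c q) := hκw.trans hE
  have hPd : ∀ v ∈ cls c p, Dn al x v := fun v hv => hT.Dn_of_top (hpfin v (mem_cls.1 hv))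
  obtain ⟨y, hy, z, hz, hyz, hgood⟩ := good_edge hT hs hκ hκ0 (x := x) (P := cls c p)
    (Q := cls c q) (fun v hv => hpfin v (mem_cls.1 hv)) hE0
    (fun y' N hav hcut => by
      rcases hS.uns x hfin p (some y') N (fun b hb => by
          have : y' = b := by simpa using hb
          rw [← this]; exact hav) (hcut.trans_le hsκ0) with h | h
      · exact Or.inl fun v hv => h v hv (hPd v hv)
      · exact Or.inr fun v hv => h v hv (hPd v hv))
    (fun y' N hav hcut => hS.uns x hfin q (some y') N (fun b hb => by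
          have : y' = b := by simpa using hb
          rw [← this]; exact hav) (hcut.trans_le hsκ0))
  have hcy := mem_cls.1 hy
  have hcz := mem_cls.1 hz
  have hyzne : y ≠ z := fun h => hpq (by rw [← hcy, ← hcz, h])
  have halp' : ∃ v ∈ cls c p, al v x := by
    obtain ⟨v, h1, h2⟩ := halp
    exact ⟨v, mem_cls.2 h1, h2⟩
  have halq' : ∃ v ∈ cls c q, al v x := by
    obtain ⟨v, h1, h2⟩ := halq
    exact ⟨v, mem_cls.2 h1, h2⟩
  let c' : V → V := fun v => if c v = q then p else c v
  let H' : SimpleGraph V := H ⊔ SimpleGraph.edge y z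
  let L' : ι → ℕ := fun τ => if (∃ v ∈ cls c p, al v τ) ∧ (∃ v ∈ cls c q, al v τ) then L τ + 1
    else L τ
  have hc'1 : ∀ v, c v = q → c' v = p := fun v hv => if_pos hv
  have hc'2 : ∀ v, c v ≠ q → c' v = c v := fun v hv => if_neg hv
  have hc'3 : ∀ u v, c' u = c' v → c u = c v ∨ (c u = p ∧ c v = q) ∨ (c u = q ∧ c v = p) := by
    intro u v h
    by_cases hu : c u = q
    · by_cases hv : c v = q
      · exact Or.inl (hu.trans hv.symm)
      · rw [hc'1 u hu, hc'2 v hv] at h
        exact Or.inr (Or.inr ⟨hu, h.symm⟩)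
    · by_cases hv : c v = q
      · rw [hc'2 u hu, hc'1 v hv] at h
        exact Or.inr (Or.inl ⟨h, hv⟩)
      · rw [hc'2 u hu, hc'2 v hv] at h
        exact Or.inl h
  have hc'5 : ∀ u, c u = p → c' u = p := fun u hu => by rw [hc'2 u (by rw [hu]; exact hpq), hu]
  -- the new classes
  have hclsp : cls c' p = cls c p ∪ cls c q := by
    ext v
    rw [mem_union, mem_cls, mem_cls, mem_cls]
    constructor
    · intro h
      by_cases hv : c v = q
      · exact Or.inr hv
      · rw [hc'2 v hv] at h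
        exact Or.inl h
    · rintro (h | h)
      · exact hc'5 v h
      · exact hc'1 v h
  have hclsq : cls c' q = ∅ := by
    rw [eq_empty_iff_forall_notMem]
    intro v hv
    rw [mem_cls] at hv
    by_cases h : c v = q
    · rw [hc'1 v h] at hv
      exact hpq hv
    · rw [hc'2 v h] at hv
      exact h hv
  have hclsr : ∀ r, r ≠ p → r ≠ q → cls c' r = cls c r := by
    intro r hrp hrq
    ext v
    rw [mem_cls, mem_cls]
    constructor
    · intro h
      by_cases hv : c v = q
      · rw [hc'1 v hv] at h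
        exact absurd h.symm hrp
      · rwa [hc'2 v hv] at h
    · intro h
      rw [hc'2 v (by rw [h]; exact hrq), h]
  have hle : H ≤ H' := le_sup_left
  have hyzadj : H'.Adj y z := by
    show (H ⊔ SimpleGraph.edge y z).Adj y z
    rw [SimpleGraph.sup_adj]
    right
    rw [SimpleGraph.edge_adj]
    exact ⟨Or.inl ⟨rfl, rfl⟩, hyzne⟩
  -- a finished cluster of the new partition is finished in the old one
  have hfin' : ∀ x', Fin' top c' x' → Fin' top c x' := by
    rintro x' ⟨r, ⟨v1, hv1⟩, ⟨v2, hv2⟩, hr⟩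
    by_cases hrp : r = p
    · subst hrp
      obtain ⟨v3, hv3, -⟩ := halp
      obtain ⟨v4, hv4, -⟩ := halq
      exact ⟨r, ⟨v4, by rw [hv4]; exact fun h => hpq h.symm⟩, ⟨v3, hv3⟩,
        fun v hv => hr v (hc'5 v hv)⟩
    · by_cases hrq : r = q
      · exfalso
        have h1 : v2 ∈ cls c' q := mem_cls.2 (hv2.trans hrq)
        rw [hclsq] at h1
        exact notMem_empty _ h1
      · have hr' := hclsr r hrp hrq
        obtain ⟨v3, hv3, -⟩ := halp
        refine ⟨r, ⟨v3, by rw [hv3]; exact fun h => hrp h.symm⟩, ⟨v2, ?_⟩, fun v hv => hr v ?_⟩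
        · have : v2 ∈ cls c r := by rw [← hr']; exact mem_cls.2 hv2
          exact mem_cls.1 this
        · have : v ∈ cls c' r := by rw [hr']; exact mem_cls.2 hv
          exact mem_cls.1 this
  -- all edges between the two clusters are below `x`
  have hbet : ∀ u ∈ cls c p, ∀ v ∈ cls c q, 0 < m u v → Dn al x v ∧ Ed top x u v :=
    fun u hu v _ huv => ⟨hT.Dn_of_adj huv (hpfin u (mem_cls.1 hu)), Or.inl (hpfin u (mem_cls.1 hu))⟩
  refine ⟨c', H', L', ⟨?_, ?_, ?_, ?_, ?_, ?_⟩, ?_⟩
  · -- classes are connected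
    intro r
    by_cases hrp : r = p
    · rw [hrp, hclsp]
      exact (hS.conn p).union hT.symm (hS.conn q) hy hz hyz
    · by_cases hrq : r = q
      · rw [hrq, hclsq]
        intro S hS' hne' _
        rw [subset_empty] at hS'
        exact absurd hS' hne'.ne_empty
      · rw [hclsr r hrp hrq]
        exact hS.conn r
  · -- spanned
    intro u v huv
    rcases hc'3 u v huv with h | ⟨h1, h2⟩ | ⟨h1, h2⟩
    · exact (hS.span u v h).mono hle
    · exact ((hS.span u y (by rw [h1, hcy])).mono hle).trans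
        (hyzadj.reachable.trans ((hS.span z v (by rw [h2, hcz])).mono hle))
    · exact ((hS.span u z (by rw [h1, hcz])).mono hle).trans
        (hyzadj.symm.reachable.trans ((hS.span y v (by rw [h2, hcy])).mono hle))
  · -- edges
    intro u v huv
    have huv' : (H ⊔ SimpleGraph.edge y z).Adj u v := huv
    rw [SimpleGraph.sup_adj, SimpleGraph.edge_adj] at huv'
    rcases huv' with h | ⟨⟨h1, h2⟩ | ⟨h1, h2⟩, _⟩
    · exact hS.adj u v h
    · rw [h1, h2]; exact hyz
    · rw [h1, h2, hT.symm]; exact hyz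
  · -- the load
    intro A
    have hload := hS.load A
    have hLL : ∀ τ, L τ ≤ L' τ := by
      intro τ
      show L τ ≤ if (∃ v ∈ cls c p, al v τ) ∧ (∃ v ∈ cls c q, al v τ) then L τ + 1 else L τ
      split_ifs
      · exact Nat.le_succ _
      · exact le_rfl
    have hsub : {e : V × V | e.1 ∈ A ∧ e.2 ∉ A ∧ H'.Adj e.1 e.2} ⊆
        {e : V × V | e.1 ∈ A ∧ e.2 ∉ A ∧ H.Adj e.1 e.2} ∪
          {e : V × V | e.1 ∈ A ∧ e.2 ∉ A ∧ (e = (y, z) ∨ e = (z, y))} := by
      rintro ⟨u, v⟩ ⟨h1, h2, h3⟩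
      have h3' : (H ⊔ SimpleGraph.edge y z).Adj u v := h3
      rw [SimpleGraph.sup_adj, SimpleGraph.edge_adj] at h3'
      rcases h3' with h | ⟨⟨h4, h5⟩ | ⟨h4, h5⟩, _⟩
      · exact Or.inl ⟨h1, h2, h⟩
      · exact Or.inr ⟨h1, h2, Or.inl (by rw [h4, h5])⟩
      · exact Or.inr ⟨h1, h2, Or.inr (by rw [h4, h5])⟩
    have hcard : tc H' A ≤ tc H A +
        Set.ncard {e : V × V | e.1 ∈ A ∧ e.2 ∉ A ∧ (e = (y, z) ∨ e = (z, y))} := by
      unfold tc
      exact (Set.ncard_le_ncard hsub (Set.toFinite _)).trans (Set.ncard_union_le _ _)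
    by_cases hcr : (y ∈ A ∧ z ∉ A) ∨ (y ∉ A ∧ z ∈ A)
    · have h1 : Set.ncard {e : V × V | e.1 ∈ A ∧ e.2 ∉ A ∧ (e = (y, z) ∨ e = (z, y))} ≤ 1 := by
        rcases hcr with hc1 | hc1
        · have h2 : {e : V × V | e.1 ∈ A ∧ e.2 ∉ A ∧ (e = (y, z) ∨ e = (z, y))} ⊆ {(y, z)} := by
            rintro ⟨u, v⟩ ⟨h1, h2, h3 | h3⟩
            · exact h3
            · rw [Prod.mk.injEq] at h3
              exact absurd h1 (by rw [h3.1]; exact hc1.2)
          have h3 := Set.ncard_le_ncard h2 (Set.toFinite _)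
          rwa [Set.ncard_singleton] at h3
        · have h2 : {e : V × V | e.1 ∈ A ∧ e.2 ∉ A ∧ (e = (y, z) ∨ e = (z, y))} ⊆ {(z, y)} := by
            rintro ⟨u, v⟩ ⟨h1, h2, h3 | h3⟩
            · rw [Prod.mk.injEq] at h3
              exact absurd h1 (by rw [h3.1]; exact hc1.1)
            · exact h3
          have h3 := Set.ncard_le_ncard h2 (Set.toFinite _)
          rwa [Set.ncard_singleton] at h3
      -- the cut below `x` is large
      have hW : s ≤ E (mr m top x none) A Aᶜ := by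
        by_contra hcon
        push Not at hcon
        have hP' := hS.uns x hfin p none A (fun b hb => by simp at hb) (hcon.trans_le hsκ0)
        have hQ' := hS.uns x hfin q none A (fun b hb => by simp at hb) (hcon.trans_le hsκ0)
        have hzd : Dn al x z := (hbet y hy z hz hyz).1
        have hmr : ∀ u v, Ed top x u v → mr m top x none u v = m u v := by
          intro u v h
          unfold mr
          rw [if_pos ⟨h, fun b hb => by simp at hb⟩]
        rcases hcr with hc1 | hc1
        · have hPA := hP'.resolve_right fun h => h y hy (hPd y hy) hc1.1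
          have hQA := hQ'.resolve_left fun h => hc1.2 (h z hz hzd)
          have h5 : E m (cls c p) (cls c q) ≤ E (mr m top x none) A Aᶜ :=
            E_le_E (mr_nonneg hT x none) fun u hu v hv huv =>
              ⟨hPA u hu (hPd u hu), mem_compl.2 (hQA v hv (hbet u hu v hv huv).1),
                (hmr u v (hbet u hu v hv huv).2).ge⟩
          linarith
        · have hPA := hP'.resolve_left fun h => hc1.1 (h y hy (hPd y hy))
          have hQA := hQ'.resolve_right fun h => h z hz hzd hc1.2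
          have h5 : E m (cls c p) (cls c q) ≤ E (mr m top x none) Aᶜ A :=
            E_le_E (mr_nonneg hT x none) fun u hu v hv huv =>
              ⟨mem_compl.2 (hPA u hu (hPd u hu)), hQA v hv (hbet u hu v hv huv).1,
                (hmr u v (hbet u hu v hv huv).2).ge⟩
          rw [E_comm (mr_symm hT x none)] at h5
          linarith
      obtain ⟨τ, hτ, hτp, hτq⟩ := hSp A x (cls c p) (cls c q) y z (hS.conn p) (hS.conn q) hy hz hyz
        (hpfin y hcy) halp' halq' hcr hW hgood
      have h2 : ∑ τ ∈ Sp A, L τ < ∑ τ ∈ Sp A, L' τ := by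
        refine sum_lt_sum (fun τ _ => hLL τ) ⟨τ, hτ, ?_⟩
        show L τ < if (∃ v ∈ cls c p, al v τ) ∧ (∃ v ∈ cls c q, al v τ) then L τ + 1 else L τ
        rw [if_pos ⟨hτp, hτq⟩]
        exact Nat.lt_succ_self _
      omega
    · have h1 : {e : V × V | e.1 ∈ A ∧ e.2 ∉ A ∧ (e = (y, z) ∨ e = (z, y))} = ∅ := by
        rw [Set.eq_empty_iff_forall_notMem]
        rintro ⟨u, v⟩ ⟨h1, h2, h3 | h3⟩
        · rw [Prod.mk.injEq] at h3
          exact hcr (Or.inl ⟨by rw [← h3.1]; exact h1, by rw [← h3.2]; exact h2⟩)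
        · rw [Prod.mk.injEq] at h3
          exact hcr (Or.inr ⟨by rw [← h3.2]; exact h2, by rw [← h3.1]; exact h1⟩)
      rw [h1, Set.ncard_empty, add_zero] at hcard
      exact hcard.trans (hload.trans (sum_le_sum fun τ _ => hLL τ))
  · -- the width
    intro τ
    have hwt := hS.wid τ
    have himg : (univ.filter fun v => al v τ).image c' ⊆
        ((univ.filter fun v => al v τ).image c).image (fun x => if x = q then p else x) := by
      rw [image_image]
      exact subset_of_eq rfl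
    have hcardle : ((univ.filter fun v => al v τ).image c').card ≤
        ((univ.filter fun v => al v τ).image c).card :=
      (card_le_card himg).trans card_image_le
    by_cases ht : (∃ v ∈ cls c p, al v τ) ∧ (∃ v ∈ cls c q, al v τ)
    · have hL' : L' τ = L τ + 1 := if_pos ht
      obtain ⟨⟨x1, hx1, hx1'⟩, ⟨x2, hx2, hx2'⟩⟩ := ht
      have hp : p ∈ (univ.filter fun v => al v τ).image c :=
        mem_image.2 ⟨x1, mem_filter.2 ⟨mem_univ _, hx1'⟩, mem_cls.1 hx1⟩
      have hq : q ∈ (univ.filter fun v => al v τ).image c :=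
        mem_image.2 ⟨x2, mem_filter.2 ⟨mem_univ _, hx2'⟩, mem_cls.1 hx2⟩
      have h1 : (univ.filter fun v => al v τ).image c' ⊆
          ((univ.filter fun v => al v τ).image c).erase q := by
        intro x hx
        obtain ⟨v, hv, rfl⟩ := mem_image.1 hx
        by_cases hvq : c v = q
        · rw [hc'1 v hvq]
          exact mem_erase.2 ⟨hpq, hp⟩
        · rw [hc'2 v hvq]
          exact mem_erase.2 ⟨hvq, mem_image_of_mem c hv⟩
      have h2 := card_le_card h1
      rw [card_erase_of_mem hq] at h2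
      have h3 : 0 < ((univ.filter fun v => al v τ).image c).card := card_pos.2 ⟨q, hq⟩
      omega
    · have hL' : L' τ = L τ := if_neg ht
      omega
  · -- finished clusters are unsplit
    intro x' hx' r y' A hav hcut
    have hx'' := hfin' x' hx'
    by_cases hrp : r = p
    · rw [hrp, hclsp] at hav ⊢
      have hP' := hS.uns x' hx'' p y' A (fun b hb v hv => hav b hb v (mem_union_left _ hv)) hcut
      have hQ' := hS.uns x' hx'' q y' A (fun b hb v hv => hav b hb v (mem_union_right _ hv)) hcut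
      have hnlt : ¬ x' < x := fun h => hmin x' h hx''
      -- incomparable nodes
      have hinc : ¬ x ≤ x' → ∀ v ∈ cls c p, ¬ Dn al x' v := by
        rintro hnle v hv ⟨z', hz1, hz2⟩
        rcases hT.chain z' x' x hz2 ((hT.le_top v z' hz1).trans (hpfin v (mem_cls.1 hv))) with
          h | h
        · rcases h.eq_or_lt with h1 | h1
          · exact hnle h1.ge
          · exact hnlt h1
        · exact hnle h
      have hmr : ∀ u ∈ cls c p, ∀ v ∈ cls c q, x ≤ x' → 0 < m u v →
          mr m top x' y' u v = m u v := by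
        intro u hu v hv hle' huv
        unfold mr
        rw [if_pos ⟨(hbet u hu v hv huv).2.mono hle', fun b hb hed => by
          rcases hed with h | h
          · exact hav b hb u (mem_union_left _ hu) (hT.Dn_of_top h)
          · exact hav b hb v (mem_union_right _ hv) (hT.Dn_of_top h)⟩]
      rcases hP' with hP' | hP' <;> rcases hQ' with hQ' | hQ'
      · left
        intro v hv
        rcases mem_union.1 hv with h | h
        · exact hP' v h
        · exact hQ' v h
      · by_cases hle' : x ≤ x'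
        · exfalso
          have h5 : E m (cls c p) (cls c q) ≤ E (mr m top x' y') A Aᶜ :=
            E_le_E (mr_nonneg hT x' y') fun u hu v hv huv =>
              ⟨hP' u hu ((hPd u hu).mono hle'),
                mem_compl.2 (hQ' v hv ((hbet u hu v hv huv).1.mono hle')),
                (hmr u hu v hv hle' huv).ge⟩
          linarith
        · right
          intro v hv hd
          rcases mem_union.1 hv with h | h
          · exact absurd hd (hinc hle' v h)
          · exact hQ' v h hd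
      · by_cases hle' : x ≤ x'
        · exfalso
          have h5 : E m (cls c p) (cls c q) ≤ E (mr m top x' y') Aᶜ A :=
            E_le_E (mr_nonneg hT x' y') fun u hu v hv huv =>
              ⟨mem_compl.2 (hP' u hu ((hPd u hu).mono hle')),
                hQ' v hv ((hbet u hu v hv huv).1.mono hle'),
                (hmr u hu v hv hle' huv).ge⟩
          rw [E_comm (mr_symm hT x' y')] at h5
          linarith
        · left
          intro v hv hd
          rcases mem_union.1 hv with h | h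
          · exact absurd hd (hinc hle' v h)
          · exact hQ' v h hd
      · right
        intro v hv
        rcases mem_union.1 hv with h | h
        · exact hP' v h
        · exact hQ' v h
    · by_cases hrq : r = q
      · rw [hrq, hclsq]
        exact Or.inl fun v hv => absurd hv (notMem_empty v)
      · rw [hclsr r hrp hrq] at hav ⊢
        exact hS.uns x' hx'' r y' A hav hcut
  · -- the number of clusters
    have hq : q ∈ univ.image c := mem_image.2 ⟨z, mem_univ _, hcz⟩
    have hp : p ∈ univ.image c := mem_image.2 ⟨y, mem_univ _, hcy⟩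
    have h1 : univ.image c' ⊆ (univ.image c).erase q := by
      intro x hx
      obtain ⟨v, hv, rfl⟩ := mem_image.1 hx
      by_cases hvq : c v = q
      · rw [hc'1 v hvq]
        exact mem_erase.2 ⟨hpq, hp⟩
      · rw [hc'2 v hvq]
        exact mem_erase.2 ⟨hvq, mem_image_of_mem c hv⟩
    exact lt_of_le_of_lt (card_le_card h1) (card_erase_lt_of_mem hq)

theorem trun (hT : TD m top al w) (hw : 0 < w) [Fintype ι] {k s κ0 : ℝ} (hk : 0 < k)
    (hconn : ∀ A : Finset V, A.Nonempty → A ≠ univ → k ≤ E m A Aᶜ) (hs : 0 < s)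
    (hκ : (3 : ℝ) ^ (w + 1) * s ≤ k / 4) (hκ0 : (2 : ℝ) ^ (w + 3) * 3 ^ (w + 1) * s ≤ κ0)
    (hκw : κ0 ≤ k / w) {Sp : Finset V → Finset ι}
    (hSp : ∀ A : Finset V, ∀ (x : ι) (P Q : Finset V) (p q : V), Cc m P → Cc m Q → p ∈ P →
        q ∈ Q → 0 < m p q → top p ≤ x → (∃ v ∈ P, al v x) → (∃ v ∈ Q, al v x) →
        ((p ∈ A ∧ q ∉ A) ∨ (p ∉ A ∧ q ∈ A)) →
        s ≤ E (mr m top x none) A Aᶜ →
        (∀ y, y < x → ((∀ v ∈ P, ¬ Dn al y v) ∨ ∀ v ∈ Q, ¬ Dn al y v) →
          ¬ Bad m top al s (k / 4) x y p q) →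
        ∃ τ ∈ Sp A, (∃ v ∈ P, al v τ) ∧ ∃ v ∈ Q, al v τ) (n : ℕ) :
    ∀ (c : V → V) (H : SimpleGraph V) (L : ι → ℕ), (univ.image c).card ≤ n →
      TSt m top al w κ0 Sp c H L →
      ∃ (c' : V → V) (H' : SimpleGraph V) (L' : ι → ℕ),
        TSt m top al w κ0 Sp c' H' L' ∧ ∀ u v, c' u = c' v := by
  induction n with
  | zero =>
    intro c H L hc hS
    refine ⟨c, H, L, hS, fun u v => ?_⟩
    have h1 : univ.image c = ∅ := card_eq_zero.1 (Nat.le_zero.1 hc)
    have h2 : c u ∈ univ.image c := mem_image_of_mem c (mem_univ _)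
    rw [h1] at h2
    exact absurd h2 (notMem_empty _)
  | succ n ih =>
    intro c H L hc hS
    by_cases h : ∀ u v, c u = c v
    · exact ⟨c, H, L, hS, h⟩
    · push Not at h
      obtain ⟨c', H', L', hS', hlt⟩ := tstep hT hw hk hconn hs hκ hκ0 hκw hSp hS h
      exact ih c' H' L' (by omega) hS'

/-- **Thin trees for rooted tree decompositions of bounded width.** -/
theorem main [Fintype ι] [Nonempty V] (hT : TD m top al w) (hw : 0 < w) {k : ℝ} (hk : 0 < k)
    (hconn : ∀ A : Finset V, A.Nonempty → A ≠ univ → k ≤ E m A Aᶜ) :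
    ∃ T : SimpleGraph V, T.IsTree ∧ (∀ u v, T.Adj u v → 0 < m u v) ∧
      ∀ A : Finset V,
        (tc T A : ℝ) ≤ 48 * w * (w + 1) * (4 * w + 5) * 6 ^ w / k * E m A Aᶜ := by
  classical
  have hw' : (1 : ℝ) ≤ w := by exact_mod_cast hw
  have hw0 : (0 : ℝ) < w := by linarith
  set s : ℝ := k / (w * 2 ^ (w + 3) * 3 ^ (w + 1)) with hs
  have hs0 : 0 < s := by positivity
  have hκ0 : (2 : ℝ) ^ (w + 3) * 3 ^ (w + 1) * s = k / w := by
    rw [hs]
    field_simp
  have hκ : (3 : ℝ) ^ (w + 1) * s ≤ k / 4 := by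
    have h1 : (3 : ℝ) ^ (w + 1) * s = k / (w * 2 ^ (w + 3)) := by
      rw [hs]
      field_simp
    rw [h1]
    apply div_le_div_of_nonneg_left hk.le (by norm_num)
    have h2 : (2 : ℝ) ^ 3 ≤ 2 ^ (w + 3) := pow_le_pow_right₀ (by norm_num) (by omega)
    nlinarith
  have hsk : s ≤ k / 4 := by
    refine le_trans ?_ hκ
    have h1 : (1 : ℝ) ≤ 3 ^ (w + 1) := one_le_pow₀ (by norm_num)
    nlinarith
  choose Sp hSp1 hSp2 using fun A : Finset V => exists_sp hT hk hconn hs0 hsk A
  have h0 : TSt m top al w (k / w) Sp id ⊥ (fun _ => 0) := by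
    have hcls : ∀ p : V, cls (id : V → V) p = {p} := by
      intro p
      ext v
      rw [mem_cls, mem_singleton]
      rfl
    refine ⟨?_, ?_, ?_, ?_, ?_, ?_⟩
    · intro p
      rw [hcls]
      exact Cc.singleton p
    · intro u v huv
      have huv' : u = v := huv
      subst huv'
      exact SimpleGraph.Reachable.refl _
    · intro u v h
      exact absurd h (by simp)
    · intro A
      have h1 : tc (⊥ : SimpleGraph V) A = 0 := by
        unfold tc
        simp
      rw [h1]
      exact Nat.zero_le _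
    · intro τ
      rw [image_id, zero_add]
      exact hT.wd τ _ fun v hv => (mem_filter.1 hv).2
    · intro x _ q y A _ _
      rw [hcls]
      by_cases h : q ∈ A
      · left
        intro v hv _
        rw [mem_singleton] at hv
        rw [hv]
        exact h
      · right
        intro v hv _
        rw [mem_singleton] at hv
        rw [hv]
        exact h
  obtain ⟨c, H, L, hS, hc⟩ := trun hT hw hk hconn hs0 hκ hκ0.le le_rfl hSp2 _ id ⊥ (fun _ => 0)
    le_rfl h0
  have hconnH : H.Connected := by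
    rw [SimpleGraph.connected_iff]
    exact ⟨fun u v => hS.span u v (hc u v), inferInstance⟩
  obtain ⟨T, hTH, hTt⟩ := hconnH.exists_isTree_le
  refine ⟨T, hTt, fun u v h => hS.adj u v (hTH h), fun A => ?_⟩
  have h2 : (tc T A : ℝ) ≤ tc H A := by exact_mod_cast tc_mono hTH A
  have h3 : tc H A ≤ (Sp A).card * (w + 1) := by
    refine (hS.load A).trans ?_
    have h4 : ∀ τ ∈ Sp A, L τ ≤ w + 1 := fun τ _ => (Nat.le_add_right _ _).trans (hS.wid τ)
    have h5 := sum_le_card_nsmul (Sp A) L (w + 1) h4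
    simpa using h5
  have h4 : (tc H A : ℝ) ≤ (Sp A).card * (w + 1) := by exact_mod_cast h3
  have h5 : ((Sp A).card : ℝ) ≤ 2 * (4 * w + 5) * E m A Aᶜ / s := by
    rw [le_div_iff₀ hs0]
    exact hSp1 A
  have h6 : ((Sp A).card : ℝ) * (w + 1) ≤ 2 * (4 * w + 5) * E m A Aᶜ / s * (w + 1) :=
    mul_le_mul_of_nonneg_right h5 (by positivity)
  refine h2.trans (h4.trans (h6.trans_eq ?_))
  have h7 : (6 : ℝ) ^ w = 2 ^ w * 3 ^ w := by
    rw [← mul_pow]
    norm_num
  rw [hs, h7, pow_add, pow_add]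
  field_simp
  ring

end

end Pool.Agent.H37Thin
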