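import Mathlib

/-!
# Marked nodes of a rooted tree

`W x` is the weight below the node `x`.  A node is marked if `⌊W x / s⌋` is positive and larger than at
all lower nodes.  There are at most `2 W(root) / s` marked nodes, and above each marked node `y` there is
a chain of nodes `x ≤ rt y` with `W x - W y < s`; every node which is neither marked nor in one of these
chains has weight less than `s`.
-/

set_option autoImplicit false

namespace Pool.Agent.H37Thin

open Finset

variable {ι : Type} [Fintype ι] [PartialOrder ι]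

theorem marks (chain : ∀ a b c : ι, a ≤ b → a ≤ c → b ≤ c ∨ c ≤ b) (W : ι → ℝ)
    (hW0 : ∀ x, 0 ≤ W x) (hmono : ∀ x y, x ≤ y → W x ≤ W y)
    (hsup : ∀ (x : ι) (M : Finset ι), (∀ c ∈ M, c ≤ x) →
      (∀ c ∈ M, ∀ c' ∈ M, c ≤ c' → c = c') → ∑ c ∈ M, W c ≤ W x)
    {s : ℝ} (hs : 0 < s) (r : ι) (hr : ∀ a, a ≤ r) :
    ∃ (B : Finset ι) (rt : ι → ι), (B.card : ℝ) * s ≤ 2 * W r ∧
      (∀ y ∈ B, y ≤ rt y ∧ W (rt y) - W y < s) ∧
      ∀ x, x ∉ B → W x < s ∨ ∃ y ∈ B, y < x ∧ x ≤ rt y := by
  classical
  set φ : ι → ℕ := fun x => ⌊W x / s⌋₊ with hφ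
  have hφmono : ∀ x y, x ≤ y → φ x ≤ φ y := fun x y h =>
    Nat.floor_mono (div_le_div_of_nonneg_right (hmono x y h) hs.le)
  have hφle : ∀ x, (φ x : ℝ) * s ≤ W x := by
    intro x
    have := Nat.floor_le (div_nonneg (hW0 x) hs.le)
    rwa [le_div_iff₀ hs] at this
  have hφlt : ∀ x, W x < ((φ x : ℝ) + 1) * s := by
    intro x
    have := Nat.lt_floor_add_one (W x / s)
    rwa [div_lt_iff₀ hs] at this
  have hφsup : ∀ (x : ι) (M : Finset ι), (∀ c ∈ M, c ≤ x) →
      (∀ c ∈ M, ∀ c' ∈ M, c ≤ c' → c = c') → ∑ c ∈ M, φ c ≤ φ x := by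
    intro x M h1 h2
    apply Nat.le_floor
    rw [le_div_iff₀ hs]
    push_cast
    rw [sum_mul]
    exact (sum_le_sum fun c _ => hφle c).trans (hsup x M h1 h2)
  set B : Finset ι := univ.filter fun x => 1 ≤ φ x ∧ ∀ x', x' < x → φ x' < φ x with hB
  have hmemB : ∀ x, x ∈ B ↔ 1 ≤ φ x ∧ ∀ x', x' < x → φ x' < φ x := by
    intro x
    rw [hB, mem_filter]
    exact ⟨fun h => h.2, fun h => ⟨mem_univ _, h⟩⟩
  -- counting
  have hcount : ∀ x, 1 ≤ φ x → (B.filter fun b => b ≤ x).card + 1 ≤ 2 * φ x := by
    intro x
    induction x using WellFoundedLT.induction with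
    | ind x ih =>
      intro hx
      by_cases hxB : x ∈ B
      · -- the marked nodes below `x`
        set C : Finset ι := B.filter fun b => b < x with hC
        set M : Finset ι := C.filter fun c => ∀ c' ∈ C, c ≤ c' → c = c' with hM
        have hsplit : B.filter (fun b => b ≤ x) ⊆ insert x C := by
          intro b hb
          rw [mem_filter] at hb
          rcases hb.2.eq_or_lt with h | h
          · rw [h]
            exact mem_insert_self _ _
          · exact mem_insert_of_mem (mem_filter.2 ⟨hb.1, h⟩)
        have hcov : C ⊆ M.biUnion fun c => B.filter fun b => b ≤ c := by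
          intro b hb
          obtain ⟨c, hbc, hc⟩ := C.exists_le_maximal hb
          rw [mem_biUnion]
          refine ⟨c, mem_filter.2 ⟨hc.1, fun c' hc' h => le_antisymm h (hc.2 hc' h)⟩,
            mem_filter.2 ⟨(mem_filter.1 hb).1, hbc⟩⟩
        have hMC : ∀ c ∈ M, c ∈ B ∧ c < x := fun c hc => by
          have := mem_filter.1 (mem_filter.1 hc).1
          exact this
        have h1 : C.card + M.card ≤ 2 * ∑ c ∈ M, φ c := by
          have h2 : C.card ≤ ∑ c ∈ M, (B.filter fun b => b ≤ c).card :=
            (card_le_card hcov).trans card_biUnion_le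
          have h3 : ∑ c ∈ M, ((B.filter fun b => b ≤ c).card + 1) ≤ ∑ c ∈ M, 2 * φ c :=
            sum_le_sum fun c hc => ih c (hMC c hc).2 ((hmemB c).1 (hMC c hc).1).1
          rw [sum_add_distrib, sum_const, smul_eq_mul, mul_one, ← mul_sum] at h3
          omega
        have h4 : ∑ c ∈ M, φ c ≤ φ x := hφsup x M (fun c hc => (hMC c hc).2.le) (by
          intro c hc c' hc' h
          exact (mem_filter.1 hc).2 c' (mem_filter.1 hc').1 h)
        have h5 : (B.filter fun b => b ≤ x).card ≤ C.card + 1 :=
          (card_le_card hsplit).trans (card_insert_le _ _)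
        rcases Nat.lt_or_ge M.card 2 with h6 | h6
        · rcases Nat.lt_or_ge M.card 1 with h7 | h7
          · have h8 : M = ∅ := card_eq_zero.1 (by omega)
            rw [h8] at h1
            simp at h1
            have h9 : C.card = 0 := by rw [h1]; rfl
            omega
          · obtain ⟨c, hc⟩ := card_eq_one.1 (show M.card = 1 by omega)
            have h8 : c ∈ M := by rw [hc]; exact mem_singleton_self _
            have h9 := ((hmemB x).1 hxB).2 c (hMC c h8).2
            rw [hc, sum_singleton, card_singleton] at h1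
            omega
        · omega
      · -- a lower node with the same value
        have h1 : ∃ y, y < x ∧ φ x ≤ φ y := by
          by_contra hcon
          push Not at hcon
          exact hxB ((hmemB x).2 ⟨hx, hcon⟩)
        obtain ⟨y, hyx, hy⟩ := h1
        have hy' : φ y = φ x := le_antisymm (hφmono y x hyx.le) hy
        have h2 : B.filter (fun b => b ≤ x) ⊆ B.filter (fun b => b ≤ y) := by
          intro b hb
          rw [mem_filter] at hb ⊢
          refine ⟨hb.1, ?_⟩
          by_contra hby
          by_cases hyb : y ≤ b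
          · have h3 : y < b := lt_of_le_of_ne hyb (fun h => hby (h ▸ le_rfl))
            have h4 := ((hmemB b).1 hb.1).2 y h3
            have h5 := hφmono b x hb.2
            omega
          · have h3 := hφsup x {b, y} (by
              intro c hc
              rw [mem_insert, mem_singleton] at hc
              rcases hc with rfl | rfl
              · exact hb.2
              · exact hyx.le) (by
              intro c hc c' hc' h
              rw [mem_insert, mem_singleton] at hc hc'
              rcases hc with rfl | rfl <;> rcases hc' with rfl | rfl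
              · rfl
              · exact absurd h hby
              · exact absurd h hyb
              · rfl)
            rw [sum_pair (show b ≠ y from fun h => hby h.le)] at h3
            have h4 := ((hmemB b).1 hb.1).1
            omega
        have h3 := card_le_card h2
        have h4 := ih y hyx (by omega)
        omega
  -- the region tops
  have hrt : ∀ y, ∃ x, y ≤ x ∧ φ x = φ y ∧ ∀ x', y ≤ x' → φ x' = φ y → x' ≤ x := by
    intro y
    obtain ⟨x, hx⟩ := (univ.filter fun x => y ≤ x ∧ φ x = φ y).exists_maximal
      ⟨y, mem_filter.2 ⟨mem_univ _, le_rfl, rfl⟩⟩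
    obtain ⟨-, h1, h2⟩ := mem_filter.1 hx.1
    refine ⟨x, h1, h2, fun x' h3 h4 => ?_⟩
    rcases chain y x' x h3 h1 with h | h
    · exact h
    · exact hx.2 (mem_filter.2 ⟨mem_univ _, h3, h4⟩) h
  choose rt hrt1 hrt2 hrt3 using hrt
  refine ⟨B, rt, ?_, ?_, ?_⟩
  · rcases Nat.lt_or_ge (φ r) 1 with h | h
    · have h1 : B = ∅ := by
        rw [eq_empty_iff_forall_notMem]
        intro b hb
        have h2 := ((hmemB b).1 hb).1
        have h3 := hφmono b r (hr b)
        omega
      rw [h1]
      simp only [card_empty, Nat.cast_zero, zero_mul]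
      exact mul_nonneg (by norm_num) (hW0 r)
    · have h1 := hcount r h
      have h2 : B.filter (fun b => b ≤ r) = B := filter_true_of_mem fun b _ => hr b
      rw [h2] at h1
      have h3 : (B.card : ℝ) ≤ 2 * φ r := by exact_mod_cast (by omega : B.card ≤ 2 * φ r)
      calc (B.card : ℝ) * s ≤ 2 * φ r * s := mul_le_mul_of_nonneg_right h3 hs.le
        _ = 2 * (φ r * s) := by ring
        _ ≤ 2 * W r := by linarith [hφle r]
  · intro y _
    refine ⟨hrt1 y, ?_⟩
    have h1 := hφlt (rt y)
    have h2 := hφle y
    rw [hrt2 y] at h1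
    linarith
  · intro x hxB
    rcases Nat.lt_or_ge (φ x) 1 with h | h
    · left
      have h1 := hφlt x
      have h2 : φ x = 0 := by omega
      rw [h2] at h1
      simpa using h1
    · right
      -- the lowest node with the same value
      obtain ⟨y, hy⟩ := (univ.filter fun y => y ≤ x ∧ φ y = φ x).exists_minimal
        ⟨x, mem_filter.2 ⟨mem_univ _, le_rfl, rfl⟩⟩
      obtain ⟨-, h1, h2⟩ := mem_filter.1 hy.1
      have hyB : y ∈ B := by
        rw [hmemB]
        refine ⟨by omega, fun x' hx' => ?_⟩
        by_contra hcon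
        push Not at hcon
        have h3 := hφmono x' y hx'.le
        have h4 := hy.2 (mem_filter.2 ⟨mem_univ x', hx'.le.trans h1, by omega⟩) hx'.le
        exact absurd (lt_of_lt_of_le hx' h4) (lt_irrefl _)
      refine ⟨y, hyB, lt_of_le_of_ne h1 (fun h3 => hxB (h3 ▸ hyB)), hrt3 y x h1 h2.symm⟩

end Pool.Agent.H37Thin
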