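import Pool.Agent.H37Thin.Tree

/-!
# From tree decompositions to rooted tree decompositions  (module ROOTED)

Choose a root `r`; `a ≤ b` if the path from `a` to `r` passes through `b`.  `top v` is the node of the
connected set of the nodes of `v` which is closest to `r`.
-/

set_option autoImplicit false

namespace Pool.Agent.H37Thin

open Finset Pool.Agent.H99Thin

/-- the paths to the root, as lists -/
theorem exists_lists {ι : Type} (T : SimpleGraph ι) (hT : T.IsTree) (r : ι) :
    ∃ S : ι → List ι, (∀ a, ∃ l, S a = a :: l) ∧ (∀ a, S r <:+ S a) ∧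
      ∀ a b, T.Adj a b → S a = a :: S b ∨ S b = b :: S a := by
  classical
  choose P hP hP' using fun a => hT.existsUnique_path a r
  have huniq : ∀ a (p : T.Walk a r), p.IsPath → p = P a := fun a p hp => hP' a p hp
  have hsuf : ∀ a b, b ∈ (P a).support → (P b).support <:+ (P a).support := by
    intro a b hb
    have h1 := (P a).support_dropUntil_suffix_support hb
    rwa [huniq b _ ((hP a).dropUntil hb)] at h1
  refine ⟨fun a => (P a).support, fun a => ⟨_, (P a).cons_tail_support.symm⟩,
    fun a => hsuf a r (P a).end_mem_support, fun a b hab => ?_⟩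
  by_cases h1 : a ∈ (P b).support
  · by_cases h2 : b ∈ (P a).support
    · exfalso
      have h3 := (hsuf a b h2).eq_of_length_le (hsuf b a h1).length_le
      have h4 := (P a).cons_tail_support.symm
      rw [← h3, ← (P b).cons_tail_support] at h4
      exact hab.ne (List.cons.inj h4).1.symm
    · right
      have h3 : (SimpleGraph.Walk.cons hab.symm (P a)).IsPath := by
        rw [SimpleGraph.Walk.cons_isPath_iff]
        exact ⟨hP a, h2⟩
      have h4 := huniq b _ h3
      show (P b).support = b :: (P a).support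
      rw [← h4, SimpleGraph.Walk.support_cons]
  · left
    have h3 : (SimpleGraph.Walk.cons hab (P b)).IsPath := by
      rw [SimpleGraph.Walk.cons_isPath_iff]
      exact ⟨hP b, h1⟩
    have h4 := huniq a _ h3
    show (P a).support = a :: (P b).support
    rw [← h4, SimpleGraph.Walk.support_cons]

/-- an edge of a connected set leaving a subset -/
theorem exists_edge {ι : Type} (T : SimpleGraph ι) (N : Set ι) (hN : (T.induce N).Preconnected)
    (D : Set ι) {a b : ι} (ha : a ∈ N) (haD : a ∈ D) (hb : b ∈ N) (hbD : b ∉ D) :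
    ∃ c ∈ N, ∃ d ∈ N, T.Adj c d ∧ c ∈ D ∧ d ∉ D := by
  obtain ⟨p⟩ := hN ⟨a, ha⟩ ⟨b, hb⟩
  obtain ⟨d, -, h1, h2⟩ := p.exists_boundary_dart {x : N | (x : ι) ∈ D} haD hbD
  exact ⟨d.fst, d.fst.2, d.snd, d.snd.2, d.adj, h1, h2⟩

/-- a tree decomposition gives a rooted one -/
theorem exists_TD {V ι : Type} [Fintype V] [Fintype ι] {m : V → V → ℝ} (nn : ∀ u v, 0 ≤ m u v)
    (symm : ∀ u v, m u v = m v u) {w : ℕ} (T : SimpleGraph ι) (hT : T.IsTree) (X : ι → Finset V)
    (hcov : ∀ v, ∃ i, v ∈ X i) (hadj : ∀ u v, 0 < m u v → ∃ i, u ∈ X i ∧ v ∈ X i)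
    (hconn : ∀ v, (T.induce {i | v ∈ X i}).Preconnected) (hw : ∀ i, (X i).card ≤ w + 1) :
    ∃ (po : PartialOrder ι) (top : V → ι), @TD V ι po m top (fun v i => v ∈ X i) w := by
  classical
  obtain ⟨r⟩ := hT.connected.nonempty
  obtain ⟨S, hS1, hS2, hS3⟩ := exists_lists T hT r
  have hinj : ∀ a b, S a = S b → a = b := by
    intro a b hab
    obtain ⟨l, hl⟩ := hS1 a
    obtain ⟨l', hl'⟩ := hS1 b
    rw [hl, hl'] at hab
    exact (List.cons.inj hab).1
  let po : PartialOrder ι :=
    { le := fun a b => S b <:+ S a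
      le_refl := fun a => List.suffix_refl _
      le_trans := fun a b c h1 h2 => h2.trans h1
      le_antisymm := fun a b h1 h2 => hinj a b (h2.eq_of_length_le h1.length_le) }
  have hle : ∀ a b : ι, a ≤ b ↔ S b <:+ S a := fun a b => Iff.rfl
  -- an edge which leaves a subtree starts at its root
  have hsep : ∀ a b t : ι, T.Adj a b → a ≤ t → ¬ b ≤ t → a = t ∧ a ≤ b := by
    intro a b t hab hat hbt
    rcases hS3 a b hab with h | h
    · rw [hle, h, List.suffix_cons_iff] at hat
      rcases hat with h1 | h1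
      · refine ⟨hinj a t (by rw [h, h1]), ?_⟩
        rw [hle, h]
        exact List.suffix_cons a (S b)
      · exact absurd h1 hbt
    · exfalso
      apply hbt
      rw [hle, h]
      exact ((hle a t).1 hat).trans (List.suffix_cons b (S a))
  have htop : ∀ v, ∃ t, v ∈ X t ∧ ∀ z, v ∈ X z → z ≤ t := by
    intro v
    obtain ⟨i, hi⟩ := hcov v
    obtain ⟨t, ht⟩ := (univ.filter fun z => v ∈ X z).exists_maximal
      ⟨i, mem_filter.2 ⟨mem_univ _, hi⟩⟩
    have htX : v ∈ X t := (mem_filter.1 ht.1).2
    refine ⟨t, htX, fun z hz => ?_⟩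
    by_contra hcon
    obtain ⟨c, hc, d, hd, hcd, h1, h2⟩ := exists_edge T {i | v ∈ X i} (hconn v) {a | a ≤ t}
      (a := t) (b := z) htX (le_refl t) hz hcon
    obtain ⟨h3, h4⟩ := hsep c d t hcd h1 h2
    rw [h3] at h4
    exact h2 (ht.2 (mem_filter.2 ⟨mem_univ _, hd⟩) h4)
  choose top htop1 htop2 using htop
  refine ⟨po, top, nn, symm, ?_, ⟨r, fun a => hS2 a⟩, htop1, htop2, ?_, hadj, ?_⟩
  · intro a b c hab hac
    exact (List.suffix_or_suffix_of_suffix hab hac).symm
  · intro v z c hz hzc hct
    by_contra hcon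
    have h1 : ¬ top v ≤ c := fun h => hcon (by rw [le_antisymm hct h]; exact htop1 v)
    obtain ⟨a, ha, d, hd, had, h2, h3⟩ := exists_edge T {i | v ∈ X i} (hconn v) {a | a ≤ c}
      (a := z) (b := top v) hz hzc (htop1 v) h1
    have h4 := (hsep a d c had h2 h3).1
    rw [h4] at ha
    exact hcon ha
  · intro z A hA
    exact (card_le_card fun v hv => hA v hv).trans (hw z)

end Pool.Agent.H37Thin
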