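import Pool.Agent.H99Thin.Part

/-!
# Rooted tree decompositions

`ι` is the set of nodes, `a ≤ b` means that `b` is an ancestor of `a`; `al v z` means that `v` is in
the bag of `z`, and `top v` is the highest node whose bag contains `v`.
-/

set_option autoImplicit false

namespace Pool.Agent.H37Thin

open Finset Pool.Agent.H99Thin

variable {V ι : Type} [PartialOrder ι]

/-- a rooted tree decomposition of width `w` -/
structure TD (m : V → V → ℝ) (top : V → ι) (al : V → ι → Prop) (w : ℕ) : Prop where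
  nn : ∀ u v, 0 ≤ m u v
  symm : ∀ u v, m u v = m v u
  chain : ∀ a b c : ι, a ≤ b → a ≤ c → b ≤ c ∨ c ≤ b
  root : ∃ r : ι, ∀ a, a ≤ r
  top_al : ∀ v, al v (top v)
  le_top : ∀ v z, al v z → z ≤ top v
  conv : ∀ v z c, al v z → z ≤ c → c ≤ top v → al v c
  adj : ∀ u v, 0 < m u v → ∃ z, al u z ∧ al v z
  wd : ∀ z (S : Finset V), (∀ v ∈ S, al v z) → S.card ≤ w + 1

/-- `v` is in a bag below `x` -/
def Dn (al : V → ι → Prop) (x : ι) (v : V) : Prop := ∃ z, al v z ∧ z ≤ x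

/-- the pair `u v` belongs to the graph below `x` -/
def Ed (top : V → ι) (x : ι) (u v : V) : Prop := top u ≤ x ∨ top v ≤ x

open Classical in
/-- the weights of the edges below `x` but not below `y` -/
noncomputable def mr (m : V → V → ℝ) (top : V → ι) (x : ι) (y : Option ι) (u v : V) : ℝ :=
  if Ed top x u v ∧ ∀ b ∈ y, ¬ Ed top b u v then m u v else 0

lemma Ed.symm {top : V → ι} {x : ι} {u v : V} (h : Ed top x u v) : Ed top x v u := Or.symm h

lemma Ed.mono {top : V → ι} {x x' : ι} {u v : V} (h : Ed top x u v) (hx : x ≤ x') :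
    Ed top x' u v := h.imp (fun h => h.trans hx) (fun h => h.trans hx)

section

variable {m : V → V → ℝ} {top : V → ι} {al : V → ι → Prop} {w : ℕ}

lemma mr_nonneg (hT : TD m top al w) (x : ι) (y : Option ι) (u v : V) : 0 ≤ mr m top x y u v := by
  unfold mr
  split_ifs
  · exact hT.nn u v
  · exact le_rfl

lemma mr_symm (hT : TD m top al w) (x : ι) (y : Option ι) (u v : V) :
    mr m top x y u v = mr m top x y v u := by
  unfold mr
  rw [hT.symm u v]
  congr 1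
  apply propext
  constructor
  · exact fun h => ⟨h.1.symm, fun b hb h' => h.2 b hb h'.symm⟩
  · exact fun h => ⟨h.1.symm, fun b hb h' => h.2 b hb h'.symm⟩

lemma mr_le (hT : TD m top al w) (x : ι) (y : Option ι) (u v : V) : mr m top x y u v ≤ m u v := by
  unfold mr
  split_ifs
  · exact le_rfl
  · exact hT.nn u v

lemma mr_pos (hT : TD m top al w) {x : ι} {y : Option ι} {u v : V} (h : 0 < mr m top x y u v) :
    0 < m u v := h.trans_le (mr_le hT x y u v)

lemma Dn.mono {x y : ι} {v : V} (h : Dn al y v) (hxy : y ≤ x) : Dn al x v := by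
  obtain ⟨z, h1, h2⟩ := h
  exact ⟨z, h1, h2.trans hxy⟩

lemma TD.al_of_Dn (hT : TD m top al w) {x : ι} {v : V} (h : Dn al x v) (hx : ¬ top v ≤ x) :
    al v x := by
  obtain ⟨z, h1, h2⟩ := h
  rcases hT.chain z x (top v) h2 (hT.le_top v z h1) with h3 | h3
  · exact hT.conv v z x h1 h2 h3
  · exact absurd h3 hx

lemma TD.Dn_of_top (hT : TD m top al w) {x : ι} {v : V} (h : top v ≤ x) : Dn al x v :=
  ⟨top v, hT.top_al v, h⟩

lemma TD.Dn_of_al {x : ι} {v : V} (h : al v x) : Dn al x v := ⟨x, h, le_rfl⟩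

lemma TD.Dn_of_adj (hT : TD m top al w) {x : ι} {u v : V} (h : 0 < m u v) (hx : top u ≤ x) :
    Dn al x v := by
  obtain ⟨z, h1, h2⟩ := hT.adj u v h
  exact ⟨z, h2, (hT.le_top u z h1).trans hx⟩

lemma TD.Dn_of_adj' (hT : TD m top al w) {x : ι} {u v : V} (h : 0 < m u v) (hx : top v ≤ x) :
    Dn al x u := hT.Dn_of_adj (by rw [hT.symm]; exact h) hx

/-- if `v` is below `y ≤ x` and alive at `x` then it is alive at `y` -/
lemma TD.al_down (hT : TD m top al w) {x y : ι} {v : V} (h : Dn al y v) (hyx : y ≤ x)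
    (hx : al v x) : al v y := by
  obtain ⟨z, h1, h2⟩ := h
  exact hT.conv v z y h1 h2 (hyx.trans (hT.le_top v x hx))

/-- a set of vertices is connected: every cut of it has an edge -/
def Cc (m : V → V → ℝ) (C : Finset V) : Prop :=
  ∀ S ⊆ C, S.Nonempty → S ≠ C → ∃ u ∈ S, ∃ v ∈ C, v ∉ S ∧ 0 < m u v

lemma Cc.mono {m' : V → V → ℝ} (hm : ∀ u v, 0 < m u v → 0 < m' u v) {C : Finset V} (h : Cc m C) :
    Cc m' C := by
  intro S hS hne hSC
  obtain ⟨u, hu, v, hv, hv', h1⟩ := h S hS hne hSC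
  exact ⟨u, hu, v, hv, hv', hm u v h1⟩

/-- a connected set has a top node -/
lemma TD.exists_top (hT : TD m top al w) {C : Finset V} (hC : Cc m C) (hne : C.Nonempty) :
    ∃ v0 ∈ C, ∀ v ∈ C, top v ≤ top v0 := by
  classical
  obtain ⟨v0, hv0, hmax⟩ : ∃ v0 ∈ C, ∀ v ∈ C, top v0 ≤ top v → top v ≤ top v0 := by
    obtain ⟨i, hi⟩ := (C.image top).exists_maximal (hne.image top)
    obtain ⟨v0, hv0, rfl⟩ := mem_image.1 hi.1
    exact ⟨v0, hv0, fun v hv h => hi.2 (mem_image_of_mem top hv) h⟩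
  refine ⟨v0, hv0, ?_⟩
  by_contra hcon
  push Not at hcon
  obtain ⟨v1, hv1, hv1'⟩ := hcon
  obtain ⟨u, hu, v, hv, hv', h1⟩ := hC (C.filter fun v => top v ≤ top v0) (filter_subset _ _)
    ⟨v0, mem_filter.2 ⟨hv0, le_rfl⟩⟩ (fun h => by
      rw [← h] at hv1
      exact hv1' (mem_filter.1 hv1).2)
  obtain ⟨z, hz1, hz2⟩ := hT.adj u v h1
  have h2 := (hT.le_top u z hz1).trans (mem_filter.1 hu).2
  rcases hT.chain z (top v0) (top v) h2 (hT.le_top v z hz2) with h3 | h3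
  · exact hv' (mem_filter.2 ⟨hv, hmax v hv h3⟩)
  · exact hv' (mem_filter.2 ⟨hv, h3⟩)

/-- the nodes at which a connected set is alive are convex -/
lemma TD.cc_conv (hT : TD m top al w) {C : Finset V} (hC : Cc m C) {z c x : ι} (hzc : z ≤ c)
    (hcx : c ≤ x) (hz : ∃ v ∈ C, al v z) (hx : ∃ v ∈ C, al v x) : ∃ v ∈ C, al v c := by
  classical
  by_contra hcon
  push Not at hcon
  obtain ⟨v0, hv0, hv0'⟩ := hz
  obtain ⟨u0, hu0, hu0'⟩ := hx
  have key : ∀ v ∈ C, ∀ z, al v z → z ≤ c → top v < c := by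
    intro v hv z h1 h2
    rcases hT.chain z c (top v) h2 (hT.le_top v z h1) with h3 | h3
    · exact absurd (hT.conv v z c h1 h2 h3) (hcon v hv)
    · refine lt_of_le_of_ne h3 fun h4 => hcon v hv ?_
      rw [← h4]
      exact hT.top_al v
  obtain ⟨u, hu, v, hv, hv', h1⟩ := hC (C.filter fun v => top v < c) (filter_subset _ _)
    ⟨v0, mem_filter.2 ⟨hv0, key v0 hv0 z hv0' hzc⟩⟩ (fun h => by
      rw [← h] at hu0
      have h2 := (mem_filter.1 hu0).2
      exact absurd (hcx.trans (hT.le_top u0 x hu0')) (not_le_of_gt h2))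
  obtain ⟨z', hz1, hz2⟩ := hT.adj u v h1
  have h2 := (hT.le_top u z' hz1).trans (mem_filter.1 hu).2.le
  exact hv' (mem_filter.2 ⟨hv, key v hv z' hz2 h2⟩)

/-- a connected set below `y ≤ x` which is alive at `x` is alive at `y` -/
lemma TD.cc_down (hT : TD m top al w) {C : Finset V} (hC : Cc m C) {y x : ι} (hyx : y ≤ x)
    (hy : ∃ v ∈ C, Dn al y v) (hx : ∃ v ∈ C, al v x) : ∃ v ∈ C, al v y := by
  obtain ⟨v, hv, z, h1, h2⟩ := hy
  exact hT.cc_conv hC h2 hyx ⟨v, hv, h1⟩ hx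

/-- union of two connected sets -/
lemma Cc.union [DecidableEq V] (hs : ∀ u v, m u v = m v u) {C D : Finset V} (hC : Cc m C) (hD : Cc m D)
    {p q : V} (hp : p ∈ C) (hq : q ∈ D) (hpq : 0 < m p q) : Cc m (C ∪ D) := by
  intro S hS hne hSC
  by_cases h1 : (S ∩ C).Nonempty ∧ S ∩ C ≠ C
  · obtain ⟨u, hu, v, hv, hv', h2⟩ := hC (S ∩ C) inter_subset_right h1.1 h1.2
    exact ⟨u, (mem_inter.1 hu).1, v, mem_union_left _ hv, fun h => hv' (mem_inter.2 ⟨h, hv⟩), h2⟩
  by_cases h2 : (S ∩ D).Nonempty ∧ S ∩ D ≠ D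
  · obtain ⟨u, hu, v, hv, hv', h3⟩ := hD (S ∩ D) inter_subset_right h2.1 h2.2
    exact ⟨u, (mem_inter.1 hu).1, v, mem_union_right _ hv, fun h => hv' (mem_inter.2 ⟨h, hv⟩), h3⟩
  have hC' : p ∈ S → C ⊆ S := by
    intro h
    by_contra hcon
    exact h1 ⟨⟨p, mem_inter.2 ⟨h, hp⟩⟩, fun h' => hcon (inter_eq_right.1 h')⟩
  have hD' : q ∈ S → D ⊆ S := by
    intro h
    by_contra hcon
    exact h2 ⟨⟨q, mem_inter.2 ⟨h, hq⟩⟩, fun h' => hcon (inter_eq_right.1 h')⟩
  by_cases hpS : p ∈ S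
  · by_cases hqS : q ∈ S
    · exact absurd (subset_antisymm hS (union_subset (hC' hpS) (hD' hqS))) hSC
    · exact ⟨p, hpS, q, mem_union_right _ hq, hqS, hpq⟩
  · by_cases hqS : q ∈ S
    · exact ⟨q, hqS, p, mem_union_left _ hp, hpS, by rw [hs]; exact hpq⟩
    · exfalso
      obtain ⟨v, hv⟩ := hne
      rcases mem_union.1 (hS hv) with h | h
      · exact h1 ⟨⟨v, mem_inter.2 ⟨hv, h⟩⟩, fun h' => hpS ((mem_inter.1 (h' ▸ hp)).1)⟩
      · exact h2 ⟨⟨v, mem_inter.2 ⟨hv, h⟩⟩, fun h' => hqS ((mem_inter.1 (h' ▸ hq)).1)⟩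

lemma Cc.singleton (v : V) : Cc m {v} := by
  intro S hS hne hSC
  rcases subset_singleton_iff.1 hS with h | h
  · exact absurd h hne.ne_empty
  · exact absurd h hSC

end

end Pool.Agent.H37Thin
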